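import Mathlib

/-!
Real numbers algebraic over the field generated by a set, and the dimension of the space spanned by
algebraically independent numbers over such a field.
-/

set_option autoImplicit false

namespace Pool.Agent.E8helper93.NM

open Set

/-- The real numbers which are algebraic over the ring generated by `Y`. -/
noncomputable def acl (Y : Set ℝ) : Subfield ℝ where
  carrier := {x | IsAlgebraic (Algebra.adjoin ℚ Y) x}
  mul_mem' := fun ha hb => IsAlgebraic.mul ha hb
  one_mem' := isAlgebraic_one
  add_mem' := fun ha hb => IsAlgebraic.add ha hb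
  zero_mem' := isAlgebraic_zero
  neg_mem' := fun ha => IsAlgebraic.neg ha
  inv_mem' := fun _ ha => IsAlgebraic.inv ha

theorem mem_acl {Y : Set ℝ} {x : ℝ} : x ∈ acl Y ↔ IsAlgebraic (Algebra.adjoin ℚ Y) x := Iff.rfl

theorem acl_eq_closure (Y : Set ℝ) :
    (acl Y : Set ℝ) = (AlgebraicIndependent.matroid ℚ ℝ).closure Y := by
  rw [AlgebraicIndependent.matroid_closure_eq]
  ext x
  rw [SetLike.mem_coe, mem_acl, SetLike.mem_coe, Subalgebra.mem_algebraicClosure]

theorem subset_acl (Y : Set ℝ) : Y ⊆ acl Y := by
  rw [acl_eq_closure]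
  exact Matroid.subset_closure _ _ (by simp)

theorem acl_mono {Y Z : Set ℝ} (h : Y ⊆ Z) : acl Y ≤ acl Z := by
  intro x hx
  have h1 : x ∈ (acl Y : Set ℝ) := hx
  rw [acl_eq_closure] at h1
  have h2 : x ∈ (acl Z : Set ℝ) := by
    rw [acl_eq_closure]
    exact Matroid.closure_subset_closure _ h h1
  exact h2

theorem card_le_of_subset_acl {ι : Type*} [Fintype ι] {c : ι → ℝ} (hc : AlgebraicIndependent ℚ c)
    {Z : Set ℝ} (h : ∀ i, c i ∈ acl Z) : (Fintype.card ι : ℕ∞) ≤ Z.encard := by
  have h1 : (AlgebraicIndependent.matroid ℚ ℝ).Indep (range c) :=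
    hc.coe_range
  have h2 : range c ⊆ (AlgebraicIndependent.matroid ℚ ℝ).closure Z := by
    rintro _ ⟨i, rfl⟩
    rw [← acl_eq_closure]
    exact h i
  have h3 := h1.encard_le_eRk_of_subset h2
  rw [Matroid.eRk_closure_eq] at h3
  have h4 := (AlgebraicIndependent.matroid ℚ ℝ).eRk_le_encard Z
  have h5 : (range c).encard = Fintype.card ι := by
    rw [← image_univ, hc.injective.encard_image, encard_univ]
    simp
  rw [← h5]
  exact h3.trans h4

/-- The span of algebraically independent numbers over a field of transcendence degree at most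
`Y.card` has dimension at least their number minus `Y.card`. -/
theorem card_le_finrank {ι : Type*} [Fintype ι] {c : ι → ℝ} (hc : AlgebraicIndependent ℚ c)
    (Y : Finset ℝ) :
    Fintype.card ι ≤ Y.card + Module.finrank (acl (Y : Set ℝ))
      (Submodule.span (acl (Y : Set ℝ)) (range c)) := by
  obtain ⟨b, hb1, hb2, hb3⟩ := exists_linearIndependent (acl (Y : Set ℝ)) (range c)
  have hfin : b.Finite := (finite_range c).subset hb1
  have hcard : Module.finrank (acl (Y : Set ℝ)) (Submodule.span (acl (Y : Set ℝ)) (range c)) =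
      b.ncard := by
    rw [← hb2]
    have : Fintype b := hfin.fintype
    rw [finrank_span_set_eq_card hb3, Set.ncard_eq_toFinset_card']
  have h1 : ∀ i, c i ∈ acl ((Y : Set ℝ) ∪ b) := by
    intro i
    have h2 : c i ∈ Submodule.span (acl (Y : Set ℝ)) b := by
      rw [hb2]
      exact Submodule.subset_span ⟨i, rfl⟩
    generalize c i = z at h2
    induction h2 using Submodule.span_induction with
    | mem x hx => exact subset_acl _ (Or.inr hx)
    | zero => exact zero_mem _
    | add x y _ _ hx hy => exact add_mem hx hy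
    | smul k x _ hx =>
      have : k • x = (k : ℝ) * x := rfl
      rw [this]
      exact mul_mem (acl_mono subset_union_left k.2) hx
  have h2 := card_le_of_subset_acl hc h1
  have h3 : ((Y : Set ℝ) ∪ b).encard ≤ (Y.card : ℕ∞) + (b.ncard : ℕ∞) := by
    refine (encard_union_le _ _).trans ?_
    rw [encard_coe_eq_coe_finsetCard, hfin.cast_ncard_eq]
  have h4 := h2.trans h3
  rw [hcard]
  exact_mod_cast h4

/-- There are algebraically independent positive real numbers. -/
theorem exists_indep (ι : Type) [Finite ι] : ∃ c : ι → ℝ, AlgebraicIndependent ℚ c ∧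
    ∀ i, 0 < c i := by
  classical
  obtain ⟨κ, x, hx⟩ := exists_isTranscendenceBasis' ℚ ℝ
  have hinf : Infinite κ := by
    by_contra hcon
    have hfin : Finite κ := not_infinite_iff_finite.1 hcon
    have h2 : Cardinal.mk κ ≤ Cardinal.aleph0 := (Cardinal.lt_aleph0_of_finite κ).le
    have halg : Algebra.IsAlgebraic (Algebra.adjoin ℚ (Set.range x)) ℝ := hx.isAlgebraic
    have h3 := Algebra.IsAlgebraic.cardinalMk_le_max (Algebra.adjoin ℚ (Set.range x)) ℝ
    have h4 : Cardinal.mk (Algebra.adjoin ℚ (Set.range x)) ≤ Cardinal.aleph0 := by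
      have h5 : Cardinal.mk (MvPolynomial κ ℚ) =
          Cardinal.mk (Algebra.adjoin ℚ (Set.range x)) :=
        Cardinal.mk_congr hx.1.aevalEquiv.toEquiv
      rw [← h5]
      refine MvPolynomial.cardinalMk_le_max.trans ?_
      simp [h2]
    rw [Cardinal.mk_real] at h3
    exact absurd (h3.trans (max_le h4 le_rfl)) (not_le.2 Cardinal.aleph0_lt_continuum)
  obtain ⟨n, ⟨e⟩⟩ := Finite.exists_equiv_fin ι
  obtain ⟨f⟩ : Nonempty (Fin n ↪ κ) := by
    exact ⟨(Fin.valEmbedding).trans (Infinite.natEmbedding κ)⟩
  have h1 : AlgebraicIndependent ℚ (x ∘ (f ∘ e)) := hx.1.comp _ (f.injective.comp e.injective)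
  have h0 : ∀ i, x (f (e i)) ≠ 0 := by
    intro i h
    have := h1.ne_zero i
    exact this h
  refine ⟨fun i => (x (f (e i))) ^ 2, ?_, fun i => ?_⟩
  · have := h1.polynomial_aeval_of_transcendental (f := fun _ => (Polynomial.X : Polynomial ℚ) ^ 2)
      (fun i => ?_)
    · simpa using this
    · exact (Polynomial.transcendental_X ℚ).pow (by norm_num)
  · have := h0 i
    positivity

end Pool.Agent.E8helper93.NM
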