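import Pool.Agent.E8helper93.NM.Good

/-!
Maximal chains of algebraically free points of a finite set.
-/

set_option autoImplicit false

namespace Pool.Agent.E8helper93.NM

open Finset

variable {d : ℕ}

/-- The coordinates of the members `1, …, i - 1` of a sequence. -/
noncomputable def cs (p : ℕ → Fin d → ℝ) (i : ℕ) : Finset ℝ :=
  ((Ico 1 i) ×ˢ univ).image (fun x => p x.1 x.2)

theorem card_cs (p : ℕ → Fin d → ℝ) (i : ℕ) : (cs p i).card ≤ (i - 1) * d := by
  unfold cs
  refine card_image_le.trans ?_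
  rw [card_product, Nat.card_Ico, card_univ, Fintype.card_fin]

theorem mem_acl_cs {p : ℕ → Fin d → ℝ} (h0 : p 0 = 0) {i j : ℕ} (h : j < i) (k : Fin d) :
    p j k ∈ acl (cs p i : Set ℝ) := by
  rcases Nat.eq_zero_or_pos j with rfl | hj
  · rw [h0]
    exact zero_mem _
  · apply subset_acl
    rw [mem_coe]
    unfold cs
    exact mem_image.2 ⟨(j, k), mem_product.2 ⟨mem_Ico.2 ⟨hj, h⟩, mem_univ _⟩, rfl⟩

/-- Each member has a coordinate which is transcendental over the preceding ones. -/
def IsCh (P : Finset (Fin d → ℝ)) (p : ℕ → Fin d → ℝ) (H : ℕ) : Prop :=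
  p 0 = 0 ∧ (∀ i, i ≤ H → p i ∈ P) ∧
    ∀ i, 1 ≤ i → i ≤ H → ∃ k, p i k ∉ acl (cs p i : Set ℝ)

theorem IsCh.ne {P : Finset (Fin d → ℝ)} {p : ℕ → Fin d → ℝ} {H : ℕ} (h : IsCh P p H)
    {i j : ℕ} (hij : j < i) (hi : i ≤ H) : p i ≠ p j := by
  intro he
  obtain ⟨k, hk⟩ := h.2.2 i (by omega) hi
  apply hk
  rw [he]
  exact mem_acl_cs h.1 hij k

theorem IsCh.inj {P : Finset (Fin d → ℝ)} {p : ℕ → Fin d → ℝ} {H : ℕ} (h : IsCh P p H)
    {i j : ℕ} (hi : i ≤ H) (hj : j ≤ H) (he : p i = p j) : i = j := by
  rcases lt_trichotomy i j with h1 | h1 | h1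
  · exact absurd he.symm (h.ne h1 hj)
  · exact h1
  · exact absurd he (h.ne h1 hi)

theorem IsCh.card_le {P : Finset (Fin d → ℝ)} {p : ℕ → Fin d → ℝ} {H : ℕ} (h : IsCh P p H) :
    H + 1 ≤ P.card := by
  have h1 : ((range (H + 1)).image p).card = H + 1 := by
    rw [card_image_of_injOn, card_range]
    intro i hi j hj he
    rw [mem_coe, mem_range] at hi hj
    exact h.inj (by omega) (by omega) he
  rw [← h1]
  apply card_le_card
  intro v hv
  obtain ⟨i, hi, rfl⟩ := mem_image.1 hv
  rw [mem_range] at hi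
  exact h.2.1 i (by omega)

theorem cs_congr {p p' : ℕ → Fin d → ℝ} {i : ℕ} (h : ∀ j, j < i → p j = p' j) :
    cs p i = cs p' i := by
  unfold cs
  apply image_congr
  intro x hx
  have := (mem_product.1 (mem_coe.1 hx)).1
  rw [mem_Ico] at this
  show p x.1 x.2 = p' x.1 x.2
  rw [h x.1 this.2]

theorem exists_chain {P : Finset (Fin d → ℝ)} (h0 : (0 : Fin d → ℝ) ∈ P) :
    ∃ (H : ℕ) (p : ℕ → Fin d → ℝ), IsCh P p H ∧
      ∀ v ∈ P, ∀ k, v k ∈ acl (cs p (H + 1) : Set ℝ) := by
  classical
  by_contra hcon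
  push Not at hcon
  have hall : ∀ H, ∃ p, IsCh P p H := by
    intro H
    induction H with
    | zero =>
      refine ⟨fun _ => 0, rfl, fun _ _ => h0, fun i hi hi' => ?_⟩
      omega
    | succ H ih =>
      obtain ⟨p, hp⟩ := ih
      obtain ⟨v, hv, k, hk⟩ := hcon H p hp
      have hne : ∀ j, j < H + 1 → Function.update p (H + 1) v j = p j := fun j hj =>
        Function.update_of_ne (by omega) _ _
      refine ⟨Function.update p (H + 1) v, ?_, ?_, ?_⟩
      · rw [hne 0 (by omega)]
        exact hp.1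
      · intro i hi
        rcases Nat.lt_or_ge i (H + 1) with h | h
        · rw [hne i h]
          exact hp.2.1 i (by omega)
        · have : i = H + 1 := by omega
          rw [this, Function.update_self]
          exact hv
      · intro i hi hi'
        have hcs : cs (Function.update p (H + 1) v) i = cs p i :=
          cs_congr fun j hj => hne j (by omega)
        rw [hcs]
        rcases Nat.lt_or_ge i (H + 1) with h | h
        · rw [hne i h]
          exact hp.2.2 i hi (by omega)
        · have : i = H + 1 := by omega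
          rw [this, Function.update_self]
          exact ⟨k, hk⟩
  obtain ⟨p, hp⟩ := hall P.card
  have := hp.card_le
  omega

theorem IsCh.linInd {P : Finset (Fin d → ℝ)} {p : ℕ → Fin d → ℝ} {H : ℕ} (h : IsCh P p H)
    (m : ℕ) (hm : m ≤ H) : LinearIndependent ℚ (fun i : Fin m => p ((i : ℕ) + 1)) := by
  induction m with
  | zero => exact linearIndependent_empty_type
  | succ m ih =>
    rw [linearIndependent_finSucc']
    refine ⟨ih (by omega), ?_⟩
    intro hmem
    obtain ⟨k, hk⟩ := h.2.2 (m + 1) (by omega) hm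
    apply hk
    have h1 : ∀ v ∈ Submodule.span ℚ (Set.range (Fin.init (fun i : Fin (m + 1) => p ((i : ℕ) + 1)))),
        ∀ k, v k ∈ acl (cs p (m + 1) : Set ℝ) := by
      intro v hv
      induction hv using Submodule.span_induction with
      | mem x hx =>
        obtain ⟨i, rfl⟩ := hx
        intro k
        exact mem_acl_cs h.1 (by
          have := i.2
          simp only [Fin.val_castSucc]
          omega) k
      | zero => intro k; exact zero_mem _
      | add x y _ _ hx hy => intro k; exact add_mem (hx k) (hy k)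
      | smul a x _ hx =>
        intro k
        have e : (a • x) k = (a : ℝ) * x k := by
          rw [Pi.smul_apply, Rat.smul_def]
        rw [e]
        exact mul_mem (SubfieldClass.ratCast_mem _ a) (hx k)
    have h2 := h1 _ hmem k
    simpa using h2

/-- Two vectors are proportional or have a non vanishing minor. -/
theorem minor {u w : Fin d → ℝ} (hu : u ≠ 0) (h : ∀ r s, u r * w s = u s * w r) :
    ∃ t : ℝ, w = t • u := by
  obtain ⟨r, hr⟩ := Function.ne_iff.1 hu
  have hr' : u r ≠ 0 := hr
  refine ⟨w r / u r, ?_⟩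
  funext s
  rw [Pi.smul_apply, smul_eq_mul, div_mul_eq_mul_div, eq_div_iff hr', mul_comm (w r), ← h r s]
  ring

/-- The intersection of two lines through points over a field, in different directions over the
field, is over the field. -/
theorem inter_mem {K : Subfield ℝ} {x y z u w : Fin d → ℝ} (hy : ∀ k, y k ∈ K) (hz : ∀ k, z k ∈ K)
    (hu : ∀ k, u k ∈ K) (hw : ∀ k, w k ∈ K) {l m : ℝ} (h1 : x - y = l • u) (h2 : x - z = m • w)
    {r s : Fin d} (h : u r * w s ≠ u s * w r) : ∀ k, x k ∈ K := by
  have e : ∀ k, l * u k - m * w k = z k - y k := by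
    intro k
    have h3 := congrFun h1 k
    have h4 := congrFun h2 k
    simp only [Pi.sub_apply, Pi.smul_apply, smul_eq_mul] at h3 h4
    linarith
  have h5 : u r * w s - u s * w r ≠ 0 := sub_ne_zero.2 h
  have h6 : l = ((z r - y r) * w s - (z s - y s) * w r) / (u r * w s - u s * w r) := by
    rw [eq_div_iff h5, ← e r, ← e s]
    ring
  have h7 : l ∈ K := by
    rw [h6]
    exact div_mem (sub_mem (mul_mem (sub_mem (hz r) (hy r)) (hw s))
      (mul_mem (sub_mem (hz s) (hy s)) (hw r))) (sub_mem (mul_mem (hu r) (hw s))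
      (mul_mem (hu s) (hw r)))
  intro k
  have h3 := congrFun h1 k
  simp only [Pi.sub_apply, Pi.smul_apply, smul_eq_mul] at h3
  have h8 : x k = y k + l * u k := by linarith
  rw [h8]
  exact add_mem (hy k) (mul_mem h7 (hu k))

end Pool.Agent.E8helper93.NM
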