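import Mathlib

/-!
Planar point sets: the number of differences (up to sign) whose slope avoids a small set of slopes.
-/

set_option autoImplicit false

namespace Pool.Agent.E8helper93.NM

open Finset

/-- Differences with positive first coordinate whose slope is not in `B`. -/
noncomputable def Vp (Q : Finset (ℝ × ℝ)) (B : Finset ℝ) : Finset (ℝ × ℝ) :=
  ((Q ×ˢ Q).image (fun x => x.1 - x.2)).filter (fun v => 0 < v.1 ∧ v.2 / v.1 ∉ B)

theorem mem_Vp {Q : Finset (ℝ × ℝ)} {B : Finset ℝ} {v : ℝ × ℝ} :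
    v ∈ Vp Q B ↔ (∃ x ∈ Q, ∃ y ∈ Q, v = x - y) ∧ 0 < v.1 ∧ v.2 / v.1 ∉ B := by
  unfold Vp
  rw [mem_filter, mem_image]
  constructor
  · rintro ⟨⟨x, hx, rfl⟩, h⟩
    rw [mem_product] at hx
    exact ⟨⟨x.1, hx.1, x.2, hx.2, rfl⟩, h⟩
  · rintro ⟨⟨x, hx, y, hy, rfl⟩, h⟩
    exact ⟨⟨(x, y), mem_product.2 ⟨hx, hy⟩, rfl⟩, h⟩

theorem half {Q : Finset (ℝ × ℝ)} {B : Finset ℝ} {H : Finset (ℝ × ℝ)}
    (h1 : ∀ v ∈ H, ∃ x ∈ Q, ∃ y ∈ Q, v = x - y) (h2 : ∀ v ∈ H, v.1 ≠ 0 ∧ v.2 / v.1 ∉ B)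
    (h3 : ∀ v ∈ H, -v ∉ H) : H.card ≤ (Vp Q B).card := by
  refine card_le_card_of_injOn (fun v => if 0 < v.1 then v else -v) ?_ ?_
  · intro v hv
    obtain ⟨x, hx, y, hy, hxy⟩ := h1 v hv
    obtain ⟨h4, h5⟩ := h2 v hv
    show (if 0 < v.1 then v else -v) ∈ Vp Q B
    split_ifs with h
    · exact mem_Vp.2 ⟨⟨x, hx, y, hy, hxy⟩, h, h5⟩
    · refine mem_Vp.2 ⟨⟨y, hy, x, hx, by rw [hxy, neg_sub]⟩, ?_, ?_⟩
      · rw [Prod.fst_neg]
        have := lt_of_le_of_ne (not_lt.1 h) h4
        linarith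
      · rw [Prod.fst_neg, Prod.snd_neg, neg_div_neg_eq]
        exact h5
  · intro v hv w hw hvw
    have hvw' : (if 0 < v.1 then v else -v) = (if 0 < w.1 then w else -w) := hvw
    split_ifs at hvw' with ha hb hb
    · exact hvw'
    · exfalso
      apply h3 w hw
      rw [← hvw']; exact hv
    · exfalso
      apply h3 v hv
      rw [hvw']; exact hw
    · exact neg_injective hvw'

/-- The height of a vector with respect to the slope `θ`. -/
def ht (θ : ℝ) (v : ℝ × ℝ) : ℝ := v.2 - θ * v.1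

theorem ht_sub (θ : ℝ) (v w : ℝ × ℝ) : ht θ (v - w) = ht θ v - ht θ w := by
  unfold ht
  rw [Prod.fst_sub, Prod.snd_sub]; ring

theorem ht_neg (θ : ℝ) (v : ℝ × ℝ) : ht θ (-v) = - ht θ v := by
  unfold ht
  rw [Prod.fst_neg, Prod.snd_neg]; ring

theorem slope_of_ht {θ : ℝ} {v : ℝ × ℝ} (h : ht θ v = 0) (h1 : v.1 ≠ 0) : v.2 / v.1 = θ := by
  unfold ht at h
  rw [div_eq_iff h1]
  linarith

theorem ht_of_slope {θ : ℝ} {v : ℝ × ℝ} (h1 : v.1 ≠ 0) (h : v.2 / v.1 = θ) : ht θ v = 0 := by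
  rw [div_eq_iff h1] at h
  unfold ht
  linarith

/-- The half-plane version of the differences. -/
noncomputable def Hh (θ : ℝ) (Q : Finset (ℝ × ℝ)) (B : Finset ℝ) : Finset (ℝ × ℝ) :=
  ((Q ×ˢ Q).image (fun x => x.1 - x.2)).filter (fun v => v.1 ≠ 0 ∧ v.2 / v.1 ∉ B ∧
    (0 < ht θ v ∨ (ht θ v = 0 ∧ 0 < v.1)))

theorem mem_Hh {θ : ℝ} {Q : Finset (ℝ × ℝ)} {B : Finset ℝ} {v : ℝ × ℝ} :
    v ∈ Hh θ Q B ↔ (∃ x ∈ Q, ∃ y ∈ Q, v = x - y) ∧ v.1 ≠ 0 ∧ v.2 / v.1 ∉ B ∧
      (0 < ht θ v ∨ (ht θ v = 0 ∧ 0 < v.1)) := by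
  unfold Hh
  rw [mem_filter, mem_image]
  constructor
  · rintro ⟨⟨x, hx, rfl⟩, h⟩
    rw [mem_product] at hx
    exact ⟨⟨x.1, hx.1, x.2, hx.2, rfl⟩, h⟩
  · rintro ⟨⟨x, hx, y, hy, rfl⟩, h⟩
    exact ⟨⟨(x, y), mem_product.2 ⟨hx, hy⟩, rfl⟩, h⟩

theorem card_Hh_le {θ : ℝ} {Q : Finset (ℝ × ℝ)} {B : Finset ℝ} :
    (Hh θ Q B).card ≤ (Vp Q B).card := by
  apply half
  · intro v hv
    exact (mem_Hh.1 hv).1
  · intro v hv
    have := (mem_Hh.1 hv).2
    exact ⟨this.1, this.2.1⟩
  · intro v hv hv'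
    have h1 := (mem_Hh.1 hv).2.2.2
    have h2 := (mem_Hh.1 hv').2.2.2
    rw [ht_neg, Prod.fst_neg] at h2
    rcases h1 with h1 | ⟨h1, h1'⟩ <;> rcases h2 with h2 | ⟨h2, h2'⟩ <;> linarith

open scoped Pointwise in
/-- Two levels: many differences at a fixed height. -/
theorem two_levels {θ : ℝ} {Q : Finset (ℝ × ℝ)} (hx : ∀ p ∈ Q, ∀ q ∈ Q, p.1 = q.1 → p = q)
    {B : Finset ℝ} {i j : ℝ} (hij : i < j) (hi : (Q.filter (fun y => ht θ y = i)).Nonempty)
    (hj : (Q.filter (fun y => ht θ y = j)).Nonempty) :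
    (Q.filter (fun y => ht θ y = j)).card + (Q.filter (fun y => ht θ y = i)).card ≤
      ((Hh θ Q B).filter (fun v => ht θ v = j - i)).card + B.card + 1 := by
  classical
  obtain ⟨Qi, hQi⟩ : ∃ Qi, Qi = Q.filter (fun y => ht θ y = i) := ⟨_, rfl⟩
  obtain ⟨Qj, hQj⟩ : ∃ Qj, Qj = Q.filter (fun y => ht θ y = j) := ⟨_, rfl⟩
  rw [← hQi] at hi ⊢
  rw [← hQj] at hj ⊢
  have hmi : ∀ y, y ∈ Qi ↔ y ∈ Q ∧ ht θ y = i := fun y => by rw [hQi, mem_filter]
  have hmj : ∀ y, y ∈ Qj ↔ y ∈ Q ∧ ht θ y = j := fun y => by rw [hQj, mem_filter]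
  obtain ⟨W, hW⟩ : ∃ W, W = (Qj ×ˢ Qi).image (fun x : (ℝ × ℝ) × (ℝ × ℝ) => x.1 - x.2) := ⟨_, rfl⟩
  have hmW : ∀ v ∈ W, ∃ x ∈ Qj, ∃ y ∈ Qi, v = x - y := by
    intro v hv
    rw [hW] at hv
    obtain ⟨x, hx', rfl⟩ := mem_image.1 hv
    rw [mem_product] at hx'
    exact ⟨x.1, hx'.1, x.2, hx'.2, rfl⟩
  -- many differences
  have h1 : Qj.card + Qi.card ≤ W.card + 1 := by
    have e1 : (Qj.image Prod.fst).card = Qj.card := by
      apply card_image_of_injOn
      intro p hp q hq hpq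
      exact hx p ((hmj p).1 hp).1 q ((hmj q).1 hq).1 hpq
    have e2 : (Qi.image (fun p => -p.1)).card = Qi.card := by
      apply card_image_of_injOn
      intro p hp q hq hpq
      exact hx p ((hmi p).1 hp).1 q ((hmi q).1 hq).1 (neg_injective hpq)
    have e3 := cauchy_davenport_add_of_linearOrder_isCancelAdd (s := Qj.image Prod.fst)
      (t := Qi.image (fun p => -p.1)) (hj.image _) (hi.image _)
    have e4 : Qj.image Prod.fst + Qi.image (fun p => -p.1) ⊆ W.image Prod.fst := by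
      intro z hz
      obtain ⟨a, ha, b, hb, rfl⟩ := Finset.mem_add.1 hz
      obtain ⟨p, hp, rfl⟩ := mem_image.1 ha
      obtain ⟨q, hq, rfl⟩ := mem_image.1 hb
      refine mem_image.2 ⟨p - q, ?_, ?_⟩
      · rw [hW]
        exact mem_image.2 ⟨(p, q), mem_product.2 ⟨hp, hq⟩, rfl⟩
      · rw [Prod.fst_sub]; ring
    have e5 := (card_le_card e4).trans card_image_le
    rw [e1, e2] at e3
    omega
  -- few bad ones
  have h2 : (W.filter (fun v => v.2 / v.1 ∈ B)).card ≤ B.card := by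
    refine card_le_card_of_injOn (fun v => v.2 / v.1) ?_ ?_
    · intro v hv
      exact (mem_filter.1 hv).2
    · intro v hv w hw hvw
      have hvw' : v.2 / v.1 = w.2 / w.1 := hvw
      have hW' : ∀ v ∈ W, v.1 ≠ 0 ∧ ht θ v = j - i := by
        intro v hv
        obtain ⟨x, hx', y, hy, rfl⟩ := hmW v hv
        rw [hmj] at hx'
        rw [hmi] at hy
        have e : ht θ (x - y) = j - i := by rw [ht_sub, hx'.2, hy.2]
        refine ⟨?_, e⟩
        intro h0
        rw [Prod.fst_sub] at h0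
        have := hx x hx'.1 y hy.1 (by linarith)
        rw [this] at hx'
        linarith [hx'.2, hy.2]
      obtain ⟨a1, a2⟩ := hW' v (mem_filter.1 hv).1
      obtain ⟨b1, b2⟩ := hW' w (mem_filter.1 hw).1
      have hs : ∀ u : ℝ × ℝ, u.1 ≠ 0 → ht θ u = j - i → u.1 * (u.2 / u.1 - θ) = j - i := by
        intro u hu hu'
        unfold ht at hu'
        rw [mul_sub, mul_div_cancel₀ _ hu]
        linarith
      have c1 := hs v a1 a2
      have c2 := hs w b1 b2
      rw [hvw'] at c1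
      have c3 : w.2 / w.1 - θ ≠ 0 := by
        intro h0
        rw [h0, mul_zero] at c1
        linarith
      have c4 : v.1 = w.1 := mul_right_cancel₀ c3 (c1.trans c2.symm)
      refine Prod.ext c4 ?_
      rw [c4, div_left_inj' b1] at hvw'
      exact hvw'
  have h3 : W.filter (fun v => ¬ v.2 / v.1 ∈ B) ⊆ (Hh θ Q B).filter (fun v => ht θ v = j - i) := by
    intro v hv
    obtain ⟨hv1, hv2⟩ := mem_filter.1 hv
    obtain ⟨x, hx', y, hy, rfl⟩ := hmW v hv1
    rw [hmj] at hx'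
    rw [hmi] at hy
    have e : ht θ (x - y) = j - i := by rw [ht_sub, hx'.2, hy.2]
    refine mem_filter.2 ⟨mem_Hh.2 ⟨⟨x, hx'.1, y, hy.1, rfl⟩, ?_, hv2, Or.inl (by linarith)⟩, e⟩
    intro h0
    rw [Prod.fst_sub] at h0
    have := hx x hx'.1 y hy.1 (by linarith)
    rw [this] at hx'
    linarith [hx'.2, hy.2]
  have h4 := card_filter_add_card_filter_not (s := W) (fun v => v.2 / v.1 ∈ B)
  have h5 := card_le_card h3
  omega

/-- The level of a rich line. -/
theorem one_level {θ : ℝ} {Q : Finset (ℝ × ℝ)} (hx : ∀ p ∈ Q, ∀ q ∈ Q, p.1 = q.1 → p = q)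
    {B : Finset ℝ} (hθ : θ ∉ B) (i : ℝ) :
    (Q.filter (fun y => ht θ y = i)).card ≤
      ((Hh θ Q B).filter (fun v => ht θ v = 0)).card + 1 := by
  classical
  rcases (Q.filter (fun y => ht θ y = i)).eq_empty_or_nonempty with h0 | hne
  · rw [h0]; simp
  obtain ⟨z, hz, hmin⟩ := exists_min_image (Q.filter (fun y => ht θ y = i)) Prod.fst hne
  have h1 : ((Q.filter (fun y => ht θ y = i)).erase z).card ≤
      ((Hh θ Q B).filter (fun v => ht θ v = 0)).card := by
    refine card_le_card_of_injOn (fun y => y - z) ?_ ?_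
    · intro y hy
      rw [mem_coe, mem_erase] at hy
      obtain ⟨hy1, hy2⟩ := hy
      have hm := hmin y hy2
      rw [mem_filter] at hy2 hz
      have e : ht θ (y - z) = 0 := by rw [ht_sub, hy2.2, hz.2, sub_self]
      have hlt : 0 < (y - z).1 := by
        rw [Prod.fst_sub]
        have : z.1 ≠ y.1 := fun h => hy1 (hx y hy2.1 z hz.1 h.symm)
        have := lt_of_le_of_ne hm this
        linarith
      refine mem_filter.2 ⟨mem_Hh.2 ⟨⟨y, hy2.1, z, hz.1, rfl⟩, hlt.ne', ?_, Or.inr ⟨e, hlt⟩⟩, e⟩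
      rw [slope_of_ht e hlt.ne']
      exact hθ
    · intro y _ y' _ h
      exact sub_left_injective h
  rw [card_erase_of_mem hz] at h1
  omega

/-- Case of a rich line: half of the levels on one side. -/
theorem levels_aux {θ : ℝ} {Q : Finset (ℝ × ℝ)} (hx : ∀ p ∈ Q, ∀ q ∈ Q, p.1 = q.1 → p = q)
    {B : Finset ℝ} (hθ : θ ∉ B) {t : ℝ}
    (hm : 2 * B.card + 1 ≤ (Q.filter (fun y => ht θ y = t)).card)
    (hab : ((Q.image (ht θ)).filter (fun j => j < t)).card ≤
      ((Q.image (ht θ)).filter (fun j => t < j)).card) :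
    Q.card ≤ (Vp Q B).card + 1 := by
  classical
  refine le_trans ?_ (Nat.add_le_add_right (card_Hh_le (θ := θ)) 1)
  obtain ⟨lev, hlev⟩ : ∃ lev, lev = Q.image (ht θ) := ⟨_, rfl⟩
  rw [← hlev] at hab
  have hQt : (Q.filter (fun y => ht θ y = t)).Nonempty := by
    rw [← card_pos]; omega
  have htl : t ∈ lev := by
    obtain ⟨y, hy⟩ := hQt
    rw [mem_filter] at hy
    rw [hlev]
    exact mem_image.2 ⟨y, hy.1, hy.2⟩
  have hne : ∀ j ∈ lev, (Q.filter (fun y => ht θ y = j)).Nonempty := by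
    intro j hj
    rw [hlev] at hj
    obtain ⟨y, hy, hyj⟩ := mem_image.1 hj
    exact ⟨y, mem_filter.2 ⟨hy, hyj⟩⟩
  obtain ⟨top, htop1, htop2⟩ := exists_max_image lev id ⟨t, htl⟩
  simp only [id] at htop2
  obtain ⟨δ, hδ⟩ : ∃ δ : ℝ → ℝ, ∀ j, δ j = if t ≤ j then j - t else top - j := ⟨_, fun _ => rfl⟩
  have htt := htop2 t htl
  have hδinj : Set.InjOn δ lev := by
    intro a ha b hb hab'
    rw [hδ, hδ] at hab'
    have ha' := htop2 a ha
    have hb' := htop2 b hb
    split_ifs at hab' with h1 h2 h2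
    · linarith
    · exfalso
      rw [not_le] at h2
      linarith
    · exfalso
      rw [not_le] at h1
      linarith
    · linarith
  -- the sum over the levels
  have hsum : ∑ j ∈ lev, ((Hh θ Q B).filter (fun v => ht θ v = δ j)).card ≤ (Hh θ Q B).card := by
    rw [← card_biUnion]
    · apply card_le_card
      intro v hv
      obtain ⟨j, _, hv'⟩ := mem_biUnion.1 hv
      exact (mem_filter.1 hv').1
    · intro a ha b hb hab'
      rw [Function.onFun, disjoint_left]
      intro v hv hv'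
      rw [mem_filter] at hv hv'
      exact hab' (hδinj ha hb (hv.2.symm.trans hv'.2))
  have hQsum : Q.card = ∑ j ∈ lev, (Q.filter (fun y => ht θ y = j)).card := by
    apply card_eq_sum_card_fiberwise
    intro y hy
    rw [mem_coe, hlev]
    exact mem_image_of_mem _ hy
  -- lower bounds for the terms
  have hterm : ∀ j ∈ lev, (((Q.filter (fun y => ht θ y = j)).card : ℤ) +
      (if j = t then -1 else if t < j then (B.card : ℤ) else -(B.card : ℤ)) ≤
      (((Hh θ Q B).filter (fun v => ht θ v = δ j)).card : ℤ)) := by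
    intro j hj
    rcases lt_trichotomy j t with h | h | h
    · have e1 : δ j = top - j := by rw [hδ, if_neg (not_le.2 h)]
      rw [if_neg h.ne, if_neg (not_lt.2 h.le), e1]
      have hjt : j < top := lt_of_lt_of_le h htt
      have h1 := two_levels (B := B) hx hjt (hne j hj) (hne top htop1)
      have h2 : 0 < (Q.filter (fun y => ht θ y = top)).card := card_pos.2 (hne top htop1)
      omega
    · have e1 : δ j = 0 := by rw [hδ, h, if_pos le_rfl, sub_self]
      rw [if_pos h, e1]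
      have h1 := one_level (B := B) hx hθ j
      omega
    · have e1 : δ j = j - t := by rw [hδ, if_pos h.le]
      rw [if_neg h.ne', if_pos h, e1]
      have h1 := two_levels (B := B) hx h hQt (hne j hj)
      omega
  have hs2 : ∑ j ∈ lev, (((Q.filter (fun y => ht θ y = j)).card : ℤ) +
      (if j = t then -1 else if t < j then (B.card : ℤ) else -(B.card : ℤ))) ≤
      ∑ j ∈ lev, (((Hh θ Q B).filter (fun v => ht θ v = δ j)).card : ℤ) := sum_le_sum hterm
  rw [sum_add_distrib] at hs2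
  have hs3 : ∑ j ∈ lev, (if j = t then (-1 : ℤ) else if t < j then (B.card : ℤ) else -(B.card : ℤ)) =
      -1 + (B.card : ℤ) * ((lev.filter (fun j => t < j)).card : ℤ) -
        (B.card : ℤ) * ((lev.filter (fun j => j < t)).card : ℤ) := by
    have e1 : ∀ j ∈ lev, (if j = t then (-1 : ℤ) else if t < j then (B.card : ℤ) else -(B.card : ℤ))
        = (if j = t then (-1 : ℤ) else 0) + (B.card : ℤ) * (if t < j then 1 else 0) -
          (B.card : ℤ) * (if j < t then 1 else 0) := by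
      intro j _
      rcases lt_trichotomy j t with h | h | h
      · rw [if_neg h.ne, if_neg (not_lt.2 h.le), if_neg (not_lt.2 h.le), if_neg h.ne, if_pos h]
        ring
      · rw [if_pos h, if_pos h, if_neg (not_lt.2 h.le), if_neg (not_lt.2 h.ge)]
        ring
      · rw [if_neg h.ne', if_pos h, if_neg h.ne', if_neg (not_lt.2 h.le), if_pos h]
        ring
    rw [sum_congr rfl e1, sum_sub_distrib, sum_add_distrib, ← mul_sum, ← mul_sum,
      sum_ite_eq' lev t, if_pos htl, card_filter, card_filter]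
    push_cast
    ring
  rw [hs3] at hs2
  have h6 : (B.card : ℤ) * ((lev.filter (fun j => j < t)).card : ℤ) ≤
      (B.card : ℤ) * ((lev.filter (fun j => t < j)).card : ℤ) :=
    mul_le_mul_of_nonneg_left (by exact_mod_cast hab) (by positivity)
  have h7 : (Q.card : ℤ) = ∑ j ∈ lev, ((Q.filter (fun y => ht θ y = j)).card : ℤ) := by
    rw [hQsum]; push_cast; rfl
  have h8 : ∑ j ∈ lev, (((Hh θ Q B).filter (fun v => ht θ v = δ j)).card : ℤ) ≤
      ((Hh θ Q B).card : ℤ) := by exact_mod_cast hsum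
  have h9 : (Q.card : ℤ) ≤ ((Hh θ Q B).card : ℤ) + 1 := by linarith
  exact_mod_cast h9

theorem Vp_neg (Q : Finset (ℝ × ℝ)) (B : Finset ℝ) : Vp (Q.image (fun y => -y)) B ⊆ Vp Q B := by
  intro v hv
  obtain ⟨⟨x, hx, y, hy, rfl⟩, h⟩ := mem_Vp.1 hv
  obtain ⟨x', hx', rfl⟩ := mem_image.1 hx
  obtain ⟨y', hy', rfl⟩ := mem_image.1 hy
  exact mem_Vp.2 ⟨⟨y', hy', x', hx', by abel⟩, h⟩

/-- Case of a rich line. -/
theorem levels {θ : ℝ} {Q : Finset (ℝ × ℝ)} (hx : ∀ p ∈ Q, ∀ q ∈ Q, p.1 = q.1 → p = q)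
    {B : Finset ℝ} (hθ : θ ∉ B) {t : ℝ}
    (hm : 2 * B.card + 1 ≤ (Q.filter (fun y => ht θ y = t)).card) :
    Q.card ≤ (Vp Q B).card + 1 := by
  classical
  rcases le_total ((Q.image (ht θ)).filter (fun j => j < t)).card
    ((Q.image (ht θ)).filter (fun j => t < j)).card with h | h
  · exact levels_aux hx hθ hm h
  · have hinj : Function.Injective (fun y : ℝ × ℝ => -y) := neg_injective
    have h1 : (Q.image (fun y => -y)).card = Q.card := card_image_of_injective _ hinj
    have h2 := levels_aux (Q := Q.image (fun y => -y)) (B := B) (θ := θ) (t := -t) (by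
      intro p hp q hq hpq
      obtain ⟨p', hp', rfl⟩ := mem_image.1 hp
      obtain ⟨q', hq', rfl⟩ := mem_image.1 hq
      rw [Prod.fst_neg, Prod.fst_neg] at hpq
      rw [hx p' hp' q' hq' (neg_injective hpq)]) hθ (by
      refine hm.trans ?_
      refine card_le_card_of_injOn (fun y => -y) ?_ (hinj.injOn)
      intro y hy
      obtain ⟨hy1, hy2⟩ := mem_filter.1 hy
      exact mem_filter.2 ⟨mem_image_of_mem _ hy1, by rw [ht_neg, hy2]⟩) (by
      calc (((Q.image (fun y => -y)).image (ht θ)).filter (fun j => j < -t)).card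
          ≤ ((Q.image (ht θ)).filter (fun j => t < j)).card := by
            refine card_le_card_of_injOn (fun j => -j) ?_ (neg_injective.injOn)
            intro j hj
            obtain ⟨hj1, hj2⟩ := mem_filter.1 hj
            obtain ⟨y, hy, rfl⟩ := mem_image.1 hj1
            obtain ⟨y', hy', rfl⟩ := mem_image.1 hy
            rw [ht_neg] at hj2
            refine mem_filter.2 ⟨?_, ?_⟩
            · show -(ht θ (-y')) ∈ _
              rw [ht_neg, neg_neg]
              exact mem_image_of_mem _ hy'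
            · show t < -(ht θ (-y'))
              rw [ht_neg, neg_neg]
              linarith
        _ ≤ ((Q.image (ht θ)).filter (fun j => j < t)).card := h
        _ ≤ _ := by
            refine card_le_card_of_injOn (fun j => -j) ?_ (neg_injective.injOn)
            intro j hj
            obtain ⟨hj1, hj2⟩ := mem_filter.1 hj
            obtain ⟨y, hy, rfl⟩ := mem_image.1 hj1
            refine mem_filter.2 ⟨mem_image.2 ⟨-y, mem_image_of_mem _ hy, ht_neg _ _⟩, ?_⟩
            show -t < -(ht θ y)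
            linarith)
    rw [h1] at h2
    exact h2.trans (Nat.add_le_add_right (card_le_card (Vp_neg Q B)) 1)

/-- Case of short lines. -/
theorem short {Q : Finset (ℝ × ℝ)} (hx : ∀ p ∈ Q, ∀ q ∈ Q, p.1 = q.1 → p = q) (B : Finset ℝ)
    {m : ℕ} (hm : ∀ θ t, (Q.filter (fun y => ht θ y = t)).card ≤ m)
    (hn : m * (2 * B.card * (m - 1) + 1) ≤ Q.card) :
    Q.card ≤ (Vp Q B).card + 1 := by
  classical
  rcases Nat.lt_or_ge Q.card 2 with h2 | h2
  · omega
  have hne : Q.Nonempty := card_pos.1 (by omega)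
  obtain ⟨z, hz, hzmin⟩ := exists_min_image Q Prod.fst hne
  have hne' : (Q.erase z).Nonempty := card_pos.1 (by rw [card_erase_of_mem hz]; omega)
  obtain ⟨y, hy, hymin⟩ := exists_min_image (Q.erase z) Prod.fst hne'
  rw [mem_erase] at hy
  obtain ⟨hyz, hy⟩ := hy
  have hlt : ∀ x ∈ Q, x ≠ z → z.1 < x.1 := by
    intro x hx' hxz
    refine lt_of_le_of_ne (hzmin x hx') fun h => hxz (hx x hx' z hz h.symm)
  have hlt2 : ∀ x ∈ Q, x ≠ z → x ≠ y → y.1 < x.1 := by
    intro x hx' hxz hxy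
    refine lt_of_le_of_ne (hymin x (mem_erase.2 ⟨hxz, hx'⟩)) fun h => hxy (hx x hx' y hy h.symm)
  obtain ⟨w, hw⟩ : ∃ w, w = y - z := ⟨_, rfl⟩
  have hw0 : 0 < w.1 := by
    rw [hw, Prod.fst_sub]
    linarith [hlt y hy hyz]
  -- bad differences from a point
  have hbad : ∀ u ∈ Q, (((Q.erase u).filter (fun x => (x - u).2 / (x - u).1 ∈ B))).card ≤
      B.card * (m - 1) := by
    intro u hu
    rw [mul_comm]
    refine card_le_mul_card_image_of_maps_to (f := fun x : ℝ × ℝ => (x - u).2 / (x - u).1)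
      (t := B) ?_ (m - 1) ?_
    · intro x hx'
      exact (mem_filter.1 hx').2
    · intro s _
      have h1 : (((Q.erase u).filter (fun x => (x - u).2 / (x - u).1 ∈ B)).filter
          (fun x => (x - u).2 / (x - u).1 = s)) ⊆ (Q.filter (fun x => ht s x = ht s u)).erase u := by
        intro x hx'
        obtain ⟨h3, h4⟩ := mem_filter.1 hx'
        obtain ⟨h5, h6⟩ := mem_filter.1 h3
        rw [mem_erase] at h5
        refine mem_erase.2 ⟨h5.1, mem_filter.2 ⟨h5.2, ?_⟩⟩
        have h7 : (x - u).1 ≠ 0 := by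
          rw [Prod.fst_sub]
          intro h8
          exact h5.1 (hx x h5.2 u hu (by linarith))
        have h8 := ht_of_slope h7 h4
        rw [ht_sub] at h8
        linarith
      refine (card_le_card h1).trans ?_
      have h9 : u ∈ Q.filter (fun x => ht s x = ht s u) := mem_filter.2 ⟨hu, rfl⟩
      rw [card_erase_of_mem h9]
      exact Nat.sub_le_sub_right (hm _ _) 1
  -- the new differences
  obtain ⟨N, hN⟩ : ∃ N, N = Q.filter (fun x => x - w ∉ Q) := ⟨_, rfl⟩
  have hNcard : 2 * B.card * (m - 1) + 1 ≤ N.card := by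
    obtain ⟨θ, hθ⟩ : ∃ θ, θ = w.2 / w.1 := ⟨_, rfl⟩
    have hwθ : ht θ w = 0 := ht_of_slope hw0.ne' hθ.symm
    have h1 : Q.card ≤ m * (Q.image (ht θ)).card :=
      card_le_mul_card_image Q m (fun b _ => hm θ b)
    have h3 : (Q.image (ht θ)).card ≤ N.card := by
      have h4 : Q.image (ht θ) ⊆ N.image (ht θ) := by
        intro j hj
        obtain ⟨x, hx', hxj⟩ := mem_image.1 hj
        obtain ⟨x0, hx0, hmin0⟩ := exists_min_image (Q.filter (fun y => ht θ y = j)) Prod.fst
          ⟨x, mem_filter.2 ⟨hx', hxj⟩⟩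
        obtain ⟨hx01, hx02⟩ := mem_filter.1 hx0
        refine mem_image.2 ⟨x0, ?_, hx02⟩
        rw [hN]
        refine mem_filter.2 ⟨hx01, fun h5 => ?_⟩
        have h6 := hmin0 (x0 - w) (mem_filter.2 ⟨h5, by rw [ht_sub, hx02, hwθ, sub_zero]⟩)
        rw [Prod.fst_sub] at h6
        linarith
      exact (card_le_card h4).trans card_image_le
    have h5 : 0 < m := by
      rcases Nat.eq_zero_or_pos m with h | h
      · rw [h, zero_mul] at h1; omega
      · exact h
    have h6 : m * (2 * B.card * (m - 1) + 1) ≤ m * N.card :=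
      hn.trans (h1.trans (Nat.mul_le_mul_left _ h3))
    exact Nat.le_of_mul_le_mul_left h6 h5
  -- two families
  obtain ⟨D1, hD1⟩ : ∃ D1, D1 = ((Q.erase z).filter (fun x => ¬ (x - z).2 / (x - z).1 ∈ B)).image
    (fun x => x - z) := ⟨_, rfl⟩
  obtain ⟨D2, hD2⟩ : ∃ D2, D2 = (((N.erase z)).filter (fun x => ¬ (x - y).2 / (x - y).1 ∈ B)).image
    (fun x => x - y) := ⟨_, rfl⟩
  have hyN : y ∉ N := by
    rw [hN, mem_filter]
    rintro ⟨_, h⟩
    apply h
    rw [hw]
    convert hz using 1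
    abel
  have hc1 : Q.card ≤ D1.card + 1 + B.card * (m - 1) := by
    rw [hD1, card_image_of_injective _ sub_left_injective]
    have h3 := card_filter_add_card_filter_not (s := Q.erase z)
      (fun x => (x - z).2 / (x - z).1 ∈ B)
    have h4 := hbad z hz
    rw [card_erase_of_mem hz] at h3
    omega
  have hc2 : N.card ≤ D2.card + 1 + B.card * (m - 1) := by
    rw [hD2, card_image_of_injective _ sub_left_injective]
    have h3 := card_filter_add_card_filter_not (s := N.erase z)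
      (fun x => (x - y).2 / (x - y).1 ∈ B)
    have h4 := hbad y hy
    have h5 : ((N.erase z).filter (fun x => (x - y).2 / (x - y).1 ∈ B)).card ≤
        ((Q.erase y).filter (fun x => (x - y).2 / (x - y).1 ∈ B)).card := by
      apply card_le_card
      apply filter_subset_filter
      intro x hx'
      rw [mem_erase] at hx' ⊢
      refine ⟨?_, ?_⟩
      · rintro rfl
        exact hyN hx'.2
      · have := hx'.2
        rw [hN] at this
        exact (mem_filter.1 this).1
    have h6 := pred_card_le_card_erase (s := N) (a := z)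
    omega
  have hdisj : Disjoint D1 D2 := by
    rw [disjoint_left]
    intro v h3 h4
    rw [hD1] at h3
    rw [hD2] at h4
    obtain ⟨x, hx', rfl⟩ := mem_image.1 h3
    obtain ⟨x', hx'', hxx⟩ := mem_image.1 h4
    have h5 := (mem_filter.1 hx'').1
    rw [mem_erase, hN, mem_filter] at h5
    apply h5.2.2
    have h6 : x' - w = x := by
      rw [hw]
      have : x' = x - z + y := by rw [← hxx]; abel
      rw [this]; abel
    rw [h6]
    exact (mem_erase.1 (mem_filter.1 hx').1).2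
  have hsub : D1 ∪ D2 ⊆ Vp Q B := by
    intro v hv
    rw [mem_union] at hv
    rcases hv with hv | hv
    · rw [hD1] at hv
      obtain ⟨x, hx', rfl⟩ := mem_image.1 hv
      obtain ⟨h3, h4⟩ := mem_filter.1 hx'
      rw [mem_erase] at h3
      refine mem_Vp.2 ⟨⟨x, h3.2, z, hz, rfl⟩, ?_, h4⟩
      rw [Prod.fst_sub]
      linarith [hlt x h3.2 h3.1]
    · rw [hD2] at hv
      obtain ⟨x, hx', rfl⟩ := mem_image.1 hv
      obtain ⟨h3, h4⟩ := mem_filter.1 hx'
      rw [mem_erase] at h3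
      have h5 : x ≠ y := by
        rintro rfl
        exact hyN h3.2
      have h6 : x ∈ Q := by
        have := h3.2
        rw [hN] at this
        exact (mem_filter.1 this).1
      refine mem_Vp.2 ⟨⟨x, h6, y, hy, rfl⟩, ?_, h4⟩
      rw [Prod.fst_sub]
      linarith [hlt2 x h6 h3.1 h5]
  have hfin := card_le_card hsub
  rw [card_union_of_disjoint hdisj] at hfin
  have e : 2 * B.card * (m - 1) = B.card * (m - 1) + B.card * (m - 1) := by ring
  omega

end Pool.Agent.E8helper93.NM
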