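import Pool.Agent.Helper309.Aff.A1
import Pool.Agent.E8helper93.NM.Plane

/-!
Few pairs of points, one of them in a small set, in directions from a small set.
-/

set_option autoImplicit false

namespace Pool.Agent.E8helper93.NM

open Finset

theorem sum_inv_cube {J : ℕ} (hJ : 1 ≤ J) (K : ℕ) (hK : J ≤ K) :
    ∑ j ∈ Ioc J K, (1 : ℝ) / (j : ℝ) ^ 3 ≤ 1 / (J : ℝ) ^ 2 - 1 / (K : ℝ) ^ 2 := by
  induction K, hK using Nat.le_induction with
  | base => simp
  | succ K hK ih =>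
    rw [← Finset.insert_Ioc_right_eq_Ioc_add_one (by omega), sum_insert (by simp)]
    have hK0 : (0 : ℝ) < K := by
      have : 0 < K := by omega
      exact_mod_cast this
    have h1 : (1 : ℝ) / ((K + 1 : ℕ) : ℝ) ^ 3 ≤ 1 / (K : ℝ) ^ 2 - 1 / ((K + 1 : ℕ) : ℝ) ^ 2 := by
      push_cast
      rw [div_sub_div _ _ (by positivity) (by positivity), div_le_div_iff₀ (by positivity)
        (by positivity)]
      nlinarith [pow_pos hK0 2, pow_pos hK0 3, pow_pos hK0 4, pow_pos hK0 5]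
    linarith

theorem layer {α : Type*} (R : Finset α) (w : α → ℕ) {J : ℕ} (hJ : 1 ≤ J) {M : ℝ}
    (hM : ∀ j, J ≤ j → (j : ℝ) ^ 3 * ((R.filter (fun a => j ≤ w a)).card : ℝ) ≤ M)
    (hw : ∀ a ∈ R, J ≤ w a) : (J : ℝ) ^ 2 * ∑ a ∈ R, (w a : ℝ) ≤ 2 * M := by
  classical
  have hJ0 : (0 : ℝ) < J := by exact_mod_cast (show 0 < J by omega)
  obtain ⟨K, hK⟩ : ∃ K, K = J + R.sup w := ⟨_, rfl⟩
  have hwK : ∀ a ∈ R, w a ≤ K := fun a ha => by
    have := le_sup (f := w) ha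
    omega
  have h1 : ∀ a ∈ R, (w a : ℝ) = J + ∑ j ∈ Ioc J K, if j ≤ w a then (1 : ℝ) else 0 := by
    intro a ha
    rw [← sum_filter, sum_const, nsmul_eq_mul, mul_one]
    have h2 : (Ioc J K).filter (fun j => j ≤ w a) = Ioc J (w a) := by
      ext j
      simp only [mem_filter, mem_Ioc]
      have := hwK a ha
      omega
    rw [h2, Nat.card_Ioc, Nat.cast_sub (hw a ha)]
    ring
  rw [sum_congr rfl h1, sum_add_distrib, sum_const, nsmul_eq_mul, sum_comm]
  have hM0 : 0 ≤ M := le_trans (by positivity) (hM J le_rfl)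
  have h3 : (J : ℝ) ^ 3 * (R.card : ℝ) ≤ M := by
    have := hM J le_rfl
    rwa [filter_true_of_mem hw] at this
  have h4 : ∀ j ∈ Ioc J K, ∑ a ∈ R, (if j ≤ w a then (1 : ℝ) else 0) ≤ M * (1 / (j : ℝ) ^ 3) := by
    intro j hj
    rw [mem_Ioc] at hj
    have h5 := hM j (by omega)
    rw [← sum_filter, sum_const, nsmul_eq_mul, mul_one, mul_one_div, le_div_iff₀ (by
      have : (0 : ℝ) < j := by exact_mod_cast (show 0 < j by omega)
      positivity)]
    linarith
  have h5 := sum_le_sum h4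
  rw [← mul_sum] at h5
  have h6 := sum_inv_cube hJ K (by omega)
  have h7 : ∑ j ∈ Ioc J K, (1 : ℝ) / (j : ℝ) ^ 3 ≤ 1 / (J : ℝ) ^ 2 := by
    have : (0 : ℝ) ≤ 1 / (K : ℝ) ^ 2 := by positivity
    linarith
  have h8 : M * ∑ j ∈ Ioc J K, (1 : ℝ) / (j : ℝ) ^ 3 ≤ M * (1 / (J : ℝ) ^ 2) :=
    mul_le_mul_of_nonneg_left h7 hM0
  have h9 : (J : ℝ) ^ 2 * (M * (1 / (J : ℝ) ^ 2)) = M := by
    field_simp
  have h10 : (J : ℝ) ^ 2 * ∑ j ∈ Ioc J K, ∑ a ∈ R, (if j ≤ w a then (1 : ℝ) else 0) ≤ M := by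
    rw [← h9]
    exact mul_le_mul_of_nonneg_left (h5.trans h8) (by positivity)
  rw [mul_add]
  have h11 : (J : ℝ) ^ 2 * ((R.card : ℝ) * J) = (J : ℝ) ^ 3 * (R.card : ℝ) := by ring
  rw [h11]
  linarith

/-- Pairs with a bad direction. -/
noncomputable def badp (Q X : Finset (ℝ × ℝ)) (B : Finset ℝ) : Finset ((ℝ × ℝ) × (ℝ × ℝ)) :=
  (Q ×ˢ X).filter (fun p => p.1 ≠ p.2 ∧ (p.1 - p.2).2 / (p.1 - p.2).1 ∈ B)

theorem bad_pairs {Q X : Finset (ℝ × ℝ)} (hx : ∀ p ∈ Q, ∀ q ∈ Q, p.1 = q.1 → p = q)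
    (hX : X ⊆ Q) (B : Finset ℝ) {M J : ℕ} (hJ : 2 ≤ J)
    (hM : ∀ θ t, (Q.filter (fun y => ht θ y = t)).card ≤ M) :
    (J : ℝ) ^ 2 * ((badp Q X B).card : ℝ) ≤
      (J : ℝ) ^ 2 * (J * (X.card * B.card) + M * (X.card : ℝ) ^ 2) +
        2 * (576 * ((Q.card : ℝ) ^ 2 + (M : ℝ) ^ 2 * Q.card)) := by
  classical
  obtain ⟨w, hw⟩ : ∃ w : (ℝ × ℝ) × ℝ → ℕ, ∀ a, w a = (Q.filter (fun y => ht a.2 y = ht a.2 a.1)).card :=
    ⟨_, fun _ => rfl⟩
  have hwM : ∀ a, w a ≤ M := fun a => by rw [hw]; exact hM _ _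
  -- fibres
  have h1 : (badp Q X B).card ≤ ∑ a ∈ X ×ˢ B, w a := by
    rw [card_eq_sum_card_fiberwise (f := fun p : (ℝ × ℝ) × (ℝ × ℝ) =>
      (p.2, (p.1 - p.2).2 / (p.1 - p.2).1)) (t := X ×ˢ B)]
    · refine sum_le_sum fun a _ => ?_
      rw [hw]
      refine card_le_card_of_injOn (fun p => p.1) ?_ ?_
      · intro p hp
        obtain ⟨h2, h3⟩ := mem_filter.1 hp
        obtain ⟨h4, h5, h6⟩ := mem_filter.1 h2
        rw [mem_product] at h4
        refine mem_filter.2 ⟨h4.1, ?_⟩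
        rw [← h3]
        have h7 : (p.1 - p.2).1 ≠ 0 := by
          rw [Prod.fst_sub]
          intro h8
          exact h5 (hx _ h4.1 _ (hX h4.2) (by linarith))
        have h8 := ht_of_slope h7 rfl
        rw [ht_sub] at h8
        show ht _ p.1 = ht _ p.2
        linarith
      · intro p hp q hq hpq
        obtain ⟨_, h3⟩ := mem_filter.1 hp
        obtain ⟨_, h5⟩ := mem_filter.1 hq
        have h6 : p.2 = q.2 := by
          have e1 := congrArg Prod.fst h3
          have e2 := congrArg Prod.fst h5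
          exact e1.trans e2.symm
        exact Prod.ext hpq h6
    · intro p hp
      obtain ⟨h4, h5, h6⟩ := mem_filter.1 hp
      rw [mem_product] at h4
      exact mem_product.2 ⟨h4.2, h6⟩
  -- the splitting
  obtain ⟨F1, hF1⟩ : ∃ F1, F1 = (X ×ˢ B).filter (fun a => w a < J) := ⟨_, rfl⟩
  obtain ⟨F2, hF2⟩ : ∃ F2, F2 = ((X ×ˢ B).filter (fun a => ¬ w a < J)).filter
    (fun a => ∃ x' ∈ X, x' ≠ a.1 ∧ ht a.2 x' = ht a.2 a.1) := ⟨_, rfl⟩
  obtain ⟨F3, hF3⟩ : ∃ F3, F3 = ((X ×ˢ B).filter (fun a => ¬ w a < J)).filter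
    (fun a => ¬ ∃ x' ∈ X, x' ≠ a.1 ∧ ht a.2 x' = ht a.2 a.1) := ⟨_, rfl⟩
  have hsplit : ∑ a ∈ X ×ˢ B, w a = ∑ a ∈ F1, w a + (∑ a ∈ F2, w a + ∑ a ∈ F3, w a) := by
    rw [hF1, hF2, hF3, sum_filter_add_sum_filter_not, sum_filter_add_sum_filter_not]
  have hb1 : ∑ a ∈ F1, w a ≤ J * (X.card * B.card) := by
    calc ∑ a ∈ F1, w a ≤ ∑ a ∈ F1, J := sum_le_sum fun a ha => by
          rw [hF1] at ha
          exact (mem_filter.1 ha).2.le
      _ = F1.card * J := by rw [sum_const, smul_eq_mul]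
      _ ≤ (X.card * B.card) * J := by
          apply Nat.mul_le_mul_right
          rw [hF1, ← card_product]
          exact card_filter_le _ _
      _ = _ := by ring
  have hb2 : ∑ a ∈ F2, w a ≤ M * X.card ^ 2 := by
    have h2 : F2 ⊆ (X ×ˢ X).image (fun p => (p.1, (p.2 - p.1).2 / (p.2 - p.1).1)) := by
      intro a ha
      rw [hF2] at ha
      obtain ⟨h3, x', hx', h4, h5⟩ := mem_filter.1 ha
      obtain ⟨h6, _⟩ := mem_filter.1 h3
      rw [mem_product] at h6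
      refine mem_image.2 ⟨(a.1, x'), mem_product.2 ⟨h6.1, hx'⟩, ?_⟩
      have h7 : (x' - a.1).1 ≠ 0 := by
        rw [Prod.fst_sub]
        intro h8
        exact h4 (hx _ (hX hx') _ (hX h6.1) (by linarith))
      have h8 := slope_of_ht (θ := a.2) (v := x' - a.1) (by rw [ht_sub, h5, sub_self]) h7
      exact Prod.ext rfl h8
    calc ∑ a ∈ F2, w a ≤ ∑ a ∈ F2, M := sum_le_sum fun a _ => hwM a
      _ = F2.card * M := by rw [sum_const, smul_eq_mul]
      _ ≤ (X.card * X.card) * M := by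
          apply Nat.mul_le_mul_right
          rw [← card_product]
          exact (card_le_card h2).trans card_image_le
      _ = _ := by ring
  have hb3 : (J : ℝ) ^ 2 * ∑ a ∈ F3, (w a : ℝ) ≤
      2 * (576 * ((Q.card : ℝ) ^ 2 + (M : ℝ) ^ 2 * Q.card)) := by
    apply layer F3 w (by omega)
    · intro j hj
      rcases (F3.filter (fun a => j ≤ w a)).eq_empty_or_nonempty with h0 | ⟨a0, ha0⟩
      · rw [h0, card_empty, Nat.cast_zero, mul_zero]
        positivity
      have hjM : j ≤ M := (mem_filter.1 ha0).2.trans (hwM a0)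
      obtain ⟨Ls, hLs⟩ : ∃ Ls, Ls = (F3.filter (fun a => j ≤ w a)).image
        (fun a => (a.2, ht a.2 a.1)) := ⟨_, rfl⟩
      have hcard : Ls.card = (F3.filter (fun a => j ≤ w a)).card := by
        rw [hLs]
        apply card_image_of_injOn
        intro a ha b hb hab
        have e1 : a.2 = b.2 := congrArg Prod.fst hab
        have e2 : ht a.2 a.1 = ht b.2 b.1 := congrArg Prod.snd hab
        rw [mem_coe, mem_filter, hF3] at ha hb
        have h3 := (mem_filter.1 ha.1).2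
        have h4 := (mem_filter.1 hb.1).1
        have h5 := (mem_product.1 (mem_filter.1 h4).1).1
        by_contra hne
        apply h3
        refine ⟨b.1, h5, ?_, ?_⟩
        · intro h6
          exact hne (Prod.ext h6.symm e1)
        · rw [e2, e1]
      have hst := Pool.Agent.Helper309.Aff.st_rich (V := Q) (Ls := Ls) hx (j := j) (by omega) (by
        intro L hL
        rw [hLs] at hL
        obtain ⟨a, ha, rfl⟩ := mem_image.1 hL
        have h3 := (mem_filter.1 ha).2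
        rw [hw] at h3
        refine h3.trans (card_le_card ?_)
        intro y hy
        rw [mem_filter] at hy ⊢
        refine ⟨hy.1, ?_⟩
        have h4 := hy.2
        show y.2 = a.2 * y.1 + ht a.2 a.1
        rw [← h4]
        unfold ht
        ring)
      rw [hcard] at hst
      have hst' : ((j ^ 3 * (F3.filter (fun a => j ≤ w a)).card : ℕ) : ℝ) ≤
          ((576 * (Q.card ^ 2 + j ^ 2 * Q.card) : ℕ) : ℝ) := by exact_mod_cast hst
      push_cast at hst'
      refine hst'.trans ?_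
      have h5 : (j : ℝ) ^ 2 ≤ (M : ℝ) ^ 2 := by
        have : (j : ℝ) ≤ M := by exact_mod_cast hjM
        gcongr
      gcongr
    · intro a ha
      rw [hF3] at ha
      exact not_lt.1 (mem_filter.1 (mem_filter.1 ha).1).2
  have h4 : ((badp Q X B).card : ℝ) ≤ (J * (X.card * B.card) : ℝ) + ((M * (X.card : ℝ) ^ 2) +
      ∑ a ∈ F3, (w a : ℝ)) := by
    have h5 : (badp Q X B).card ≤ J * (X.card * B.card) + (M * X.card ^ 2 + ∑ a ∈ F3, w a) := by
      rw [hsplit] at h1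
      omega
    have h6 : ((badp Q X B).card : ℝ) ≤
        ((J * (X.card * B.card) + (M * X.card ^ 2 + ∑ a ∈ F3, w a) : ℕ) : ℝ) := by
      exact_mod_cast h5
    push_cast at h6
    exact h6
  have h5 : (J : ℝ) ^ 2 * ((badp Q X B).card : ℝ) ≤ (J : ℝ) ^ 2 *
      ((J * (X.card * B.card) : ℝ) + ((M * (X.card : ℝ) ^ 2) + ∑ a ∈ F3, (w a : ℝ))) :=
    mul_le_mul_of_nonneg_left h4 (by positivity)
  refine h5.trans ?_
  rw [mul_add, mul_add, mul_add]
  linarith

end Pool.Agent.E8helper93.NM
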