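import Pool.Agent.E8helper93.NM.Iso
import Pool.Agent.E8helper93.NM.Chain
import Pool.Agent.E8helper93.NM.Inc

/-!
Counting differences of a finite point set with the help of a chain.
-/

set_option autoImplicit false

namespace Pool.Agent.E8helper93.NM

open Finset

variable {d : ℕ}

/-- Nonzero differences. -/
noncomputable def Df (P : Finset (Fin d → ℝ)) : Finset (Fin d → ℝ) :=
  ((P ×ˢ P).image (fun x => x.1 - x.2)).erase 0

theorem mem_Df {P : Finset (Fin d → ℝ)} {v : Fin d → ℝ} :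
    v ∈ Df P ↔ v ≠ 0 ∧ ∃ x ∈ P, ∃ y ∈ P, v = x - y := by
  unfold Df
  rw [mem_erase, mem_image]
  constructor
  · rintro ⟨h, x, hx, rfl⟩
    rw [mem_product] at hx
    exact ⟨h, x.1, hx.1, x.2, hx.2, rfl⟩
  · rintro ⟨h, x, hx, y, hy, rfl⟩
    exact ⟨h, (x, y), mem_product.2 ⟨hx, hy⟩, rfl⟩

theorem sub_mem_Df {P : Finset (Fin d → ℝ)} {x y : Fin d → ℝ} (hx : x ∈ P) (hy : y ∈ P)
    (h : x ≠ y) : x - y ∈ Df P := mem_Df.2 ⟨sub_ne_zero.2 h, x, hx, y, hy, rfl⟩

theorem neg_mem_Df {P : Finset (Fin d → ℝ)} {v : Fin d → ℝ} (hv : v ∈ Df P) : -v ∈ Df P := by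
  obtain ⟨h, x, hx, y, hy, rfl⟩ := mem_Df.1 hv
  exact mem_Df.2 ⟨neg_ne_zero.2 h, y, hy, x, hx, by abel⟩

/-- The conditions on the two functionals. -/
structure Gen (P : Finset (Fin d → ℝ)) (f g : (Fin d → ℝ) →ₗ[ℝ] ℝ) : Prop where
  hf : ∀ v ∈ Df P, f v ≠ 0
  hg : ∀ v ∈ Df P, ∀ w ∈ Df P, g v / f v = g w / f w → (f v)⁻¹ • v = (f w)⁻¹ • w

theorem exists_gen (P : Finset (Fin d → ℝ)) : ∃ f g, Gen P f g := by
  classical
  obtain ⟨f, hf⟩ := Module.exists_dual_forall_apply_ne_zero (K := ℝ) (fun s : Df P => (s : Fin d → ℝ))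
    (fun s => (mem_Df.1 s.2).1)
  have hf' : ∀ v ∈ Df P, f v ≠ 0 := fun v hv => hf ⟨v, hv⟩
  obtain ⟨g, hg⟩ := Module.exists_dual_forall_apply_ne_zero (K := ℝ)
    (fun s : {x : (Fin d → ℝ) × (Fin d → ℝ) // x ∈ (Df P ×ˢ Df P).filter
      (fun x => (f x.1)⁻¹ • x.1 - (f x.2)⁻¹ • x.2 ≠ 0)} =>
      ((f s.1.1)⁻¹ • s.1.1 - (f s.1.2)⁻¹ • s.1.2 : Fin d → ℝ))
    (fun s => (mem_filter.1 s.2).2)
  refine ⟨f, g, hf', ?_⟩
  intro v hv w hw h
  by_contra hne
  have h1 := hg ⟨(v, w), mem_filter.2 ⟨mem_product.2 ⟨hv, hw⟩, sub_ne_zero.2 hne⟩⟩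
  apply h1
  show g ((f v)⁻¹ • v - (f w)⁻¹ • w) = 0
  rw [map_sub, map_smul, map_smul, smul_eq_mul, smul_eq_mul, ← div_eq_inv_mul, ← div_eq_inv_mul, h,
    sub_self]

/-- The projection to the plane. -/
def pr (f g : (Fin d → ℝ) →ₗ[ℝ] ℝ) (v : Fin d → ℝ) : ℝ × ℝ := (f v, g v)

theorem pr_sub (f g : (Fin d → ℝ) →ₗ[ℝ] ℝ) (v w : Fin d → ℝ) :
    pr f g (v - w) = pr f g v - pr f g w := by
  unfold pr
  rw [map_sub, map_sub, Prod.mk_sub_mk]

theorem pr_neg (f g : (Fin d → ℝ) →ₗ[ℝ] ℝ) (v : Fin d → ℝ) : pr f g (-v) = -pr f g v := by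
  unfold pr
  rw [map_neg, map_neg, Prod.neg_mk]

variable {P : Finset (Fin d → ℝ)} {f g : (Fin d → ℝ) →ₗ[ℝ] ℝ}

theorem Gen.f_inj (h : Gen P f g) {x y : Fin d → ℝ} (hx : x ∈ P) (hy : y ∈ P) (he : f x = f y) :
    x = y := by
  by_contra hne
  apply h.hf _ (sub_mem_Df hx hy hne)
  rw [map_sub, he, sub_self]

theorem Gen.pr_inj (h : Gen P f g) : Set.InjOn (pr f g) P := by
  intro x hx y hy he
  exact h.f_inj hx hy (congrArg Prod.fst he)

theorem Gen.card_image (h : Gen P f g) : (P.image (pr f g)).card = P.card :=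
  card_image_of_injOn h.pr_inj

theorem Gen.hx (h : Gen P f g) :
    ∀ p ∈ P.image (pr f g), ∀ q ∈ P.image (pr f g), p.1 = q.1 → p = q := by
  intro p hp q hq hpq
  obtain ⟨x, hx, rfl⟩ := mem_image.1 hp
  obtain ⟨y, hy, rfl⟩ := mem_image.1 hq
  rw [h.f_inj hx hy hpq]

theorem Gen.pr_inj_Df (h : Gen P f g) : Set.InjOn (pr f g) (Df P) := by
  intro v hv w hw he
  have e1 : f v = f w := congrArg Prod.fst he
  have e2 : g v = g w := congrArg Prod.snd he
  have h1 := h.hg v hv w hw (by rw [e1, e2])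
  have h2 := h.hf w hw
  rw [e1] at h1
  exact smul_right_injective _ (inv_ne_zero h2) h1

/-- Differences with a good slope are at most twice the planar count. -/
theorem Gen.card_good (h : Gen P f g) (B : Finset ℝ) :
    ((Df P).filter (fun v => g v / f v ∉ B)).card ≤ 2 * (Vp (P.image (pr f g)) B).card := by
  classical
  have h1 : (((Df P).filter (fun v => g v / f v ∉ B)).filter (fun v => 0 < f v)).card ≤
      (Vp (P.image (pr f g)) B).card := by
    refine card_le_card_of_injOn (pr f g) ?_ ?_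
    · intro v hv
      obtain ⟨h2, h3⟩ := mem_filter.1 hv
      obtain ⟨h4, h5⟩ := mem_filter.1 h2
      obtain ⟨_, x, hx, y, hy, rfl⟩ := mem_Df.1 h4
      exact mem_Vp.2 ⟨⟨_, mem_image_of_mem _ hx, _, mem_image_of_mem _ hy, pr_sub _ _ _ _⟩, h3, h5⟩
    · intro v hv w hw he
      exact h.pr_inj_Df (mem_filter.1 (mem_filter.1 hv).1).1 (mem_filter.1 (mem_filter.1 hw).1).1 he
  have h2 : (((Df P).filter (fun v => g v / f v ∉ B)).filter (fun v => ¬ 0 < f v)).card ≤
      (Vp (P.image (pr f g)) B).card := by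
    refine card_le_card_of_injOn (fun v => pr f g (-v)) ?_ ?_
    · intro v hv
      obtain ⟨h2, h3⟩ := mem_filter.1 hv
      obtain ⟨h4, h5⟩ := mem_filter.1 h2
      have h6 := h.hf v h4
      obtain ⟨_, x, hx, y, hy, rfl⟩ := mem_Df.1 h4
      refine mem_Vp.2 ⟨⟨_, mem_image_of_mem _ hy, _, mem_image_of_mem _ hx, ?_⟩, ?_, ?_⟩
      · show pr f g (-(x - y)) = pr f g y - pr f g x
        rw [← pr_sub, neg_sub]
      · show 0 < f (-(x - y))
        rw [map_neg]
        have := lt_of_le_of_ne (not_lt.1 h3) h6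
        linarith
      · show g (-(x - y)) / f (-(x - y)) ∉ B
        rw [map_neg, map_neg, neg_div_neg_eq]
        exact h5
    · intro v hv w hw he
      have := h.pr_inj_Df (neg_mem_Df (mem_filter.1 (mem_filter.1 hv).1).1)
        (neg_mem_Df (mem_filter.1 (mem_filter.1 hw).1).1) he
      exact neg_injective this
  have h3 := card_filter_add_card_filter_not (s := (Df P).filter (fun v => g v / f v ∉ B))
    (fun v => 0 < f v)
  omega

/-- Many good differences from a chain which is long compared with the logarithm. -/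
theorem sparse (hG : Gen P f g) {p : ℕ → Fin d → ℝ} {H h k : ℕ} (hch : IsCh P p H) (hh : h ≤ H)
    (B : Finset ℝ) (hk : 2 * (Vp (P.image (pr f g)) B).card + P.card ≤ 2 ^ k) :
    h * P.card ≤ h + (badp (P.image (pr f g)) ((range h).image (fun i => pr f g (p (i + 1)))) B).card +
      k * (2 * (Vp (P.image (pr f g)) B).card + P.card) := by
  classical
  obtain ⟨A, hA⟩ : ∃ A, A = (Df P).filter (fun v => g v / f v ∉ B) ∪ P := ⟨_, rfl⟩
  have hAc : A.card ≤ 2 * (Vp (P.image (pr f g)) B).card + P.card := by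
    rw [hA]
    exact (card_union_le _ _).trans (Nat.add_le_add_right (hG.card_good B) _)
  have hlin := hch.linInd h hh
  have hiso := iso hlin A.card k A rfl (hAc.trans hk)
  have hedge : ∀ i : Fin h, P.card ≤ 1 + (P.filter (fun y => y ≠ p ((i : ℕ) + 1) ∧
      g (y - p ((i : ℕ) + 1)) / f (y - p ((i : ℕ) + 1)) ∈ B)).card +
        (A.filter (fun a => a + p ((i : ℕ) + 1) ∈ A)).card := by
    intro i
    have hpi : p ((i : ℕ) + 1) ∈ P := hch.2.1 _ (by have := i.2; omega)
    generalize p ((i : ℕ) + 1) = x at hpi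
    have h1 : ((P.erase x).filter (fun y => ¬ g (y - x) / f (y - x) ∈ B)).card ≤
        (A.filter (fun a => a + x ∈ A)).card := by
      refine card_le_card_of_injOn (fun y => y - x) ?_ sub_left_injective.injOn
      intro y hy
      obtain ⟨h2, h3⟩ := mem_filter.1 hy
      rw [mem_erase] at h2
      refine mem_filter.2 ⟨?_, ?_⟩
      · rw [hA]
        exact mem_union_left _ (mem_filter.2 ⟨sub_mem_Df h2.2 hpi h2.1, h3⟩)
      · show y - x + x ∈ A
        rw [sub_add_cancel, hA]
        exact mem_union_right _ h2.2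
    have h2 : ((P.erase x).filter (fun y => g (y - x) / f (y - x) ∈ B)).card ≤
        (P.filter (fun y => y ≠ x ∧ g (y - x) / f (y - x) ∈ B)).card := by
      apply card_le_card
      intro y hy
      obtain ⟨h2, h3⟩ := mem_filter.1 hy
      rw [mem_erase] at h2
      exact mem_filter.2 ⟨h2.2, h2.1, h3⟩
    have h3 := card_filter_add_card_filter_not (s := P.erase x) (fun y => g (y - x) / f (y - x) ∈ B)
    rw [card_erase_of_mem hpi] at h3
    omega
  have hsum : ∑ _i : Fin h, P.card ≤ ∑ i : Fin h, (1 + (P.filter (fun y => y ≠ p ((i : ℕ) + 1) ∧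
      g (y - p ((i : ℕ) + 1)) / f (y - p ((i : ℕ) + 1)) ∈ B)).card +
        (A.filter (fun a => a + p ((i : ℕ) + 1) ∈ A)).card) := sum_le_sum fun i _ => hedge i
  rw [sum_const, card_univ, Fintype.card_fin, smul_eq_mul, sum_add_distrib, sum_add_distrib,
    sum_const, card_univ, Fintype.card_fin, smul_eq_mul, mul_one] at hsum
  have hbad : ∑ i : Fin h, (P.filter (fun y => y ≠ p ((i : ℕ) + 1) ∧
      g (y - p ((i : ℕ) + 1)) / f (y - p ((i : ℕ) + 1)) ∈ B)).card ≤
      (badp (P.image (pr f g)) ((range h).image (fun i => pr f g (p (i + 1)))) B).card := by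
    rw [← card_sigma]
    refine card_le_card_of_injOn (fun x => (pr f g x.2, pr f g (p ((x.1 : ℕ) + 1)))) ?_ ?_
    · rintro ⟨i, y⟩ hy
      obtain ⟨_, h1⟩ := mem_sigma.1 hy
      obtain ⟨h2, h3, h4⟩ := mem_filter.1 h1
      refine mem_filter.2 ⟨mem_product.2 ⟨mem_image_of_mem _ h2,
        mem_image.2 ⟨i, mem_range.2 i.2, rfl⟩⟩, ?_, ?_⟩
      · intro he
        exact h3 (hG.pr_inj h2 (hch.2.1 _ (by have := i.2; omega)) he)
      · show (pr f g y - pr f g (p ((i : ℕ) + 1))).2 / (pr f g y - pr f g (p ((i : ℕ) + 1))).1 ∈ B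
        rw [← pr_sub]
        exact h4
    · rintro ⟨i, y⟩ hy ⟨j, z⟩ hz he
      obtain ⟨_, h1⟩ := mem_sigma.1 hy
      obtain ⟨_, h2⟩ := mem_sigma.1 hz
      have e1 := hG.pr_inj (mem_filter.1 h1).1 (mem_filter.1 h2).1 (congrArg Prod.fst he)
      have e2 := hG.pr_inj (hch.2.1 _ (by have := i.2; omega)) (hch.2.1 _ (by have := j.2; omega))
        (congrArg Prod.snd he)
      have e3 : (i : ℕ) + 1 = (j : ℕ) + 1 :=
        hch.inj (by have := i.2; omega) (by have := j.2; omega) e2
      have e4 : i = j := Fin.ext (by omega)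
      subst e4
      have e5 : y = z := e1
      rw [e5]
  have hedges : edges (fun i : Fin h => p ((i : ℕ) + 1)) A =
      ∑ i : Fin h, (A.filter (fun a => a + p ((i : ℕ) + 1) ∈ A)).card := rfl
  rw [hedges] at hiso
  have h9 : k * A.card ≤ k * (2 * (Vp (P.image (pr f g)) B).card + P.card) :=
    Nat.mul_le_mul_left _ hAc
  omega

/-- Differences of a chain are different. -/
theorem IsCh.diff_inj {p : ℕ → Fin d → ℝ} {H : ℕ} (hch : IsCh P p H) {i j k l : ℕ} (hi : i ≤ H)
    (hj : j ≤ H) (hk : k ≤ H) (hl : l ≤ H) (hij : i ≠ j) (hkl : k ≠ l)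
    (he : p i - p j = p k - p l) : i = k ∧ j = l := by
  obtain ⟨M, hM⟩ : ∃ M, M = max (max i j) (max k l) := ⟨_, rfl⟩
  have hiM : i ≤ M := by rw [hM]; simp
  have hjM : j ≤ M := by rw [hM]; simp
  have hkM : k ≤ M := by rw [hM]; simp
  have hlM : l ≤ M := by rw [hM]; simp
  have hMH : M ≤ H := by rw [hM]; simp [hi, hj, hk, hl]
  have hMe : M = i ∨ M = j ∨ M = k ∨ M = l := by omega
  obtain ⟨r, hr⟩ := hch.2.2 M (by omega) hMH
  have hK : ∀ t, t < M → p t r ∈ acl (cs p M : Set ℝ) := fun t ht => mem_acl_cs hch.1 ht r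
  have her : p i r - p j r = p k r - p l r := by
    have := congrFun he r
    simpa using this
  have h2 : ∀ z : ℝ, z + z ∈ acl (cs p M : Set ℝ) → z ∈ acl (cs p M : Set ℝ) := by
    intro z hz
    have : z = (z + z) / ((2 : ℕ) : ℝ) := by push_cast; ring
    rw [this]
    exact div_mem hz (natCast_mem _ 2)
  by_cases hi1 : i = M
  · by_cases hk1 : k = M
    · refine ⟨hi1.trans hk1.symm, ?_⟩
      rw [hi1, hk1] at he
      exact hch.inj hj hl (sub_right_injective he)
    · exfalso
      have hj1 : j < M := by omega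
      by_cases hl1 : l = M
      · apply hr
        apply h2
        rw [hi1, hl1] at her
        have : p M r + p M r = p j r + p k r := by linarith
        rw [this]
        exact add_mem (hK j hj1) (hK k (by omega))
      · apply hr
        rw [hi1] at her
        have : p M r = p j r + p k r - p l r := by linarith
        rw [this]
        exact sub_mem (add_mem (hK j hj1) (hK k (by omega))) (hK l (by omega))
  · by_cases hj1 : j = M
    · by_cases hl1 : l = M
      · refine ⟨?_, hj1.trans hl1.symm⟩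
        rw [hj1, hl1] at he
        exact hch.inj hi hk (sub_left_injective he)
      · exfalso
        by_cases hk1 : k = M
        · apply hr
          apply h2
          rw [hj1, hk1] at her
          have : p M r + p M r = p i r + p l r := by linarith
          rw [this]
          exact add_mem (hK i (by omega)) (hK l (by omega))
        · apply hr
          rw [hj1] at her
          have : p M r = p i r + p l r - p k r := by linarith
          rw [this]
          exact sub_mem (add_mem (hK i (by omega)) (hK l (by omega))) (hK k (by omega))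
    · exfalso
      by_cases hk1 : k = M
      · apply hr
        rw [hk1] at her
        have : p M r = p i r - p j r + p l r := by linarith
        rw [this]
        exact add_mem (sub_mem (hK i (by omega)) (hK j (by omega))) (hK l (by omega))
      · apply hr
        have hl1 : l = M := by omega
        rw [hl1] at her
        have : p M r = p k r - p i r + p j r := by linarith
        rw [this]
        exact add_mem (sub_mem (hK k (by omega)) (hK i (by omega))) (hK j (by omega))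

/-- Members of a chain on a line of good slope. -/
theorem chain_line (hG : Gen P f g) {p : ℕ → Fin d → ℝ} {H : ℕ} (hch : IsCh P p H) {B : Finset ℝ}
    {θ : ℝ} (hθ : θ ∉ B) (I : Finset ℕ) (hI : ∀ i ∈ I, i ≤ H)
    (hs : ∀ i ∈ I, ∀ j ∈ I, i ≠ j → g (p i - p j) / f (p i - p j) = θ) :
    I.card * I.card ≤ 2 * (Vp (P.image (pr f g)) B).card + I.card := by
  have h1 : I.offDiag.card ≤ ((Df P).filter (fun v => g v / f v ∉ B)).card := by
    refine card_le_card_of_injOn (fun x => p x.1 - p x.2) ?_ ?_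
    · intro x hx
      rw [mem_coe, mem_offDiag] at hx
      refine mem_filter.2 ⟨sub_mem_Df (hch.2.1 _ (hI _ hx.1)) (hch.2.1 _ (hI _ hx.2.1)) ?_, ?_⟩
      · intro he
        exact hx.2.2 (hch.inj (hI _ hx.1) (hI _ hx.2.1) he)
      · show g (p x.1 - p x.2) / f (p x.1 - p x.2) ∉ B
        rw [hs _ hx.1 _ hx.2.1 hx.2.2]
        exact hθ
    · intro x hx y hy he
      rw [mem_coe, mem_offDiag] at hx hy
      have := hch.diff_inj (hI _ hx.1) (hI _ hx.2.1) (hI _ hy.1) (hI _ hy.2.1) hx.2.2 hy.2.2 he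
      exact Prod.ext this.1 this.2
  rw [offDiag_card] at h1
  have h2 := hG.card_good B
  omega

/-- Slopes of the first members of a sequence. -/
noncomputable def Sl (f g : (Fin d → ℝ) →ₗ[ℝ] ℝ) (p : ℕ → Fin d → ℝ) (m : ℕ) : Finset ℝ :=
  ((range m).offDiag).image (fun x => g (p x.1 - p x.2) / f (p x.1 - p x.2))

theorem mem_Sl {p : ℕ → Fin d → ℝ} {m : ℕ} {s : ℝ} : s ∈ Sl f g p m ↔
    ∃ a, a < m ∧ ∃ b, b < m ∧ a ≠ b ∧ s = g (p a - p b) / f (p a - p b) := by
  unfold Sl
  rw [mem_image]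
  constructor
  · rintro ⟨x, hx, rfl⟩
    rw [mem_offDiag, mem_range, mem_range] at hx
    exact ⟨x.1, hx.1, x.2, hx.2.1, hx.2.2, rfl⟩
  · rintro ⟨a, ha, b, hb, hab, rfl⟩
    exact ⟨(a, b), mem_offDiag.2 ⟨mem_range.2 ha, mem_range.2 hb, hab⟩, rfl⟩

theorem slope_symm (f g : (Fin d → ℝ) →ₗ[ℝ] ℝ) (x y : Fin d → ℝ) :
    g (x - y) / f (x - y) = g (y - x) / f (y - x) := by
  rw [← neg_sub y x, map_neg, map_neg, neg_div_neg_eq]

/-- Two directions from a new member of a chain which occurred before are equal. -/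
theorem old_slopes (hG : Gen P f g) {p : ℕ → Fin d → ℝ} {H : ℕ} (hch : IsCh P p H) {m j k : ℕ}
    (hm : m ≤ H) (hj : j < m) (hk : k < m)
    (h1 : g (p m - p j) / f (p m - p j) ∈ Sl f g p m)
    (h2 : g (p m - p k) / f (p m - p k) ∈ Sl f g p m) :
    g (p m - p j) / f (p m - p j) = g (p m - p k) / f (p m - p k) := by
  obtain ⟨a, ha, b, hb, hab, e1⟩ := mem_Sl.1 h1
  obtain ⟨a', ha', b', hb', hab', e2⟩ := mem_Sl.1 h2
  have hP : ∀ i, i ≤ m → p i ∈ P := fun i hi => hch.2.1 i (by omega)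
  have hne : ∀ i j, i ≤ m → j ≤ m → i ≠ j → p i ≠ p j := fun i j hi hj hij he =>
    hij (hch.inj (by omega) (by omega) he)
  have hD : ∀ i j, i ≤ m → j ≤ m → i ≠ j → p i - p j ∈ Df P := fun i j hi hj hij =>
    sub_mem_Df (hP i hi) (hP j hj) (hne i j hi hj hij)
  have hu := hD a b ha.le hb.le hab
  have hw := hD a' b' ha'.le hb'.le hab'
  have hmj := hD m j le_rfl hj.le hj.ne'
  have hmk := hD m k le_rfl hk.le hk.ne'
  have hsc : ∀ x ∈ Df P, ∀ u ∈ Df P, g x / f x = g u / f u → x = (f x / f u) • u := by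
    intro x hx u hu he
    calc x = f x • ((f x)⁻¹ • x) := by rw [smul_smul, mul_inv_cancel₀ (hG.hf x hx), one_smul]
      _ = _ := by rw [hG.hg x hx u hu he, smul_smul, div_eq_mul_inv]
  by_contra hcon
  have h3 : ∃ r s, (p a - p b) r * (p a' - p b') s ≠ (p a - p b) s * (p a' - p b') r := by
    by_contra hno
    push Not at hno
    obtain ⟨t, ht⟩ := minor (mem_Df.1 hu).1 hno
    apply hcon
    rw [e1, e2, ht, map_smul, map_smul, smul_eq_mul, smul_eq_mul]
    have ht0 : t ≠ 0 := by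
      rintro rfl
      rw [zero_smul] at ht
      exact (mem_Df.1 hw).1 ht
    rw [mul_div_mul_left _ _ ht0]
  obtain ⟨r, s, hrs⟩ := h3
  obtain ⟨q, hq⟩ := hch.2.2 m (by omega) hm
  apply hq
  refine inter_mem (K := acl (cs p m : Set ℝ)) (fun q => mem_acl_cs hch.1 hj q)
    (fun q => mem_acl_cs hch.1 hk q) ?_ ?_ (hsc _ hmj _ hu e1) (hsc _ hmk _ hw e2) hrs q
  · intro q
    exact sub_mem (mem_acl_cs hch.1 ha q) (mem_acl_cs hch.1 hb q)
  · intro q
    exact sub_mem (mem_acl_cs hch.1 ha' q) (mem_acl_cs hch.1 hb' q)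

theorem card_Sl_succ (hG : Gen P f g) {p : ℕ → Fin d → ℝ} {H : ℕ} (hch : IsCh P p H) {s0 : ℕ}
    (hs : ∀ θ : ℝ, ∀ I : Finset ℕ, (∀ i ∈ I, i ≤ H) →
      (∀ i ∈ I, ∀ j ∈ I, i ≠ j → g (p i - p j) / f (p i - p j) = θ) → I.card ≤ s0)
    {m : ℕ} (hm : m ≤ H) : (Sl f g p m).card + m + 1 ≤ (Sl f g p (m + 1)).card + s0 := by
  classical
  have hcol : ∀ i j, i < m → j < m → i ≠ j → g (p m - p i) / f (p m - p i) =
      g (p m - p j) / f (p m - p j) → g (p i - p j) / f (p i - p j) =
      g (p m - p j) / f (p m - p j) := by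
    intro i j hi hj hij he
    have hP : ∀ i, i ≤ m → p i ∈ P := fun i hi => hch.2.1 i (by omega)
    have hne : ∀ i j, i ≤ m → j ≤ m → i ≠ j → p i ≠ p j := fun i j hi hj hij he =>
      hij (hch.inj (by omega) (by omega) he)
    have hD : ∀ i j, i ≤ m → j ≤ m → i ≠ j → p i - p j ∈ Df P := fun i j hi hj hij =>
      sub_mem_Df (hP i hi) (hP j hj) (hne i j hi hj hij)
    have h1 := hG.hf _ (hD m i le_rfl hi.le hi.ne')
    have h2 := hG.hf _ (hD m j le_rfl hj.le hj.ne')
    have h3 := hG.hf _ (hD i j hi.le hj.le hij)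
    have e0 : p i - p j = (p m - p j) - (p m - p i) := by abel
    have e1 : g (p i - p j) = g (p m - p j) - g (p m - p i) := by rw [e0, map_sub]
    have e2 : f (p i - p j) = f (p m - p j) - f (p m - p i) := by rw [e0, map_sub]
    rw [div_eq_div_iff h1 h2] at he
    rw [div_eq_div_iff h3 h2, e1, e2]
    linear_combination -he
  have hsplit := card_filter_add_card_filter_not (s := range m)
    (fun j => g (p m - p j) / f (p m - p j) ∈ Sl f g p m)
  rw [card_range] at hsplit
  have hold : ((range m).filter (fun j => g (p m - p j) / f (p m - p j) ∈ Sl f g p m)).card + 1 ≤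
      s0 := by
    obtain ⟨O, hO⟩ : ∃ O, O = (range m).filter
      (fun j => g (p m - p j) / f (p m - p j) ∈ Sl f g p m) := ⟨_, rfl⟩
    rw [← hO]
    have hOm : ∀ j ∈ O, j < m ∧ g (p m - p j) / f (p m - p j) ∈ Sl f g p m := by
      intro j hj
      rw [hO, mem_filter, mem_range] at hj
      exact hj
    have hmO : m ∉ O := fun h => lt_irrefl _ (hOm m h).1
    rw [← card_insert_of_notMem hmO]
    rcases O.eq_empty_or_nonempty with h0 | ⟨j0, hj0⟩
    · apply hs 0
      · intro i hi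
        rw [h0] at hi
        simp only [insert_empty_eq, mem_singleton] at hi
        omega
      · intro i hi j hj hij
        rw [h0] at hi hj
        simp only [insert_empty_eq, mem_singleton] at hi hj
        omega
    · have hall : ∀ j ∈ O, g (p m - p j) / f (p m - p j) = g (p m - p j0) / f (p m - p j0) :=
        fun j hj => old_slopes hG hch hm (hOm j hj).1 (hOm j0 hj0).1 (hOm j hj).2 (hOm j0 hj0).2
      apply hs (g (p m - p j0) / f (p m - p j0))
      · intro i hi
        rw [mem_insert] at hi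
        rcases hi with rfl | hi
        · exact hm
        · have := (hOm i hi).1
          omega
      · intro i hi j hj hij
        rw [mem_insert] at hi hj
        rcases hi with rfl | hi <;> rcases hj with rfl | hj
        · exact absurd rfl hij
        · exact hall j hj
        · rw [slope_symm]
          exact hall i hi
        · rw [hcol i j (hOm i hi).1 (hOm j hj).1 hij ((hall i hi).trans (hall j hj).symm)]
          exact hall j hj
  have hnew : ((range m).filter (fun j => ¬ g (p m - p j) / f (p m - p j) ∈ Sl f g p m)).card ≤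
      ((Sl f g p (m + 1)) \ (Sl f g p m)).card := by
    refine card_le_card_of_injOn (fun j => g (p m - p j) / f (p m - p j)) ?_ ?_
    · intro j hj
      obtain ⟨h1, h2⟩ := mem_filter.1 hj
      rw [mem_range] at h1
      refine mem_sdiff.2 ⟨mem_Sl.2 ⟨m, by omega, j, by omega, by omega, rfl⟩, h2⟩
    · intro i hi j hj he
      obtain ⟨h1, h2⟩ := mem_filter.1 hi
      obtain ⟨h3, h4⟩ := mem_filter.1 hj
      rw [mem_range] at h1 h3
      by_contra hij
      apply h4
      have he' : g (p m - p i) / f (p m - p i) = g (p m - p j) / f (p m - p j) := he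
      rw [← hcol i j h1 h3 hij he']
      exact mem_Sl.2 ⟨i, h1, j, h3, hij, rfl⟩
  have hsub : Sl f g p m ⊆ Sl f g p (m + 1) := by
    intro s hs
    obtain ⟨a, ha, b, hb, hab, rfl⟩ := mem_Sl.1 hs
    exact mem_Sl.2 ⟨a, by omega, b, by omega, hab, rfl⟩
  have h5 := card_sdiff_add_card_eq_card hsub
  omega

/-- The number of slopes of a long chain. -/
theorem card_Sl (hG : Gen P f g) {p : ℕ → Fin d → ℝ} {H : ℕ} (hch : IsCh P p H) {s0 : ℕ}
    (hs : ∀ θ : ℝ, ∀ I : Finset ℕ, (∀ i ∈ I, i ≤ H) →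
      (∀ i ∈ I, ∀ j ∈ I, i ≠ j → g (p i - p j) / f (p i - p j) = θ) → I.card ≤ s0) :
    ∀ t : ℕ, s0 + t ≤ H + 1 → t * (t + 1) ≤ 2 * (Sl f g p (s0 + t)).card := by
  intro t
  induction t with
  | zero => intro _; simp
  | succ t ih =>
    intro ht
    have h1 := ih (by omega)
    have h2 := card_Sl_succ hG hch hs (m := s0 + t) (by omega)
    have h3 : s0 + (t + 1) = s0 + t + 1 := by ring
    rw [h3]
    nlinarith

end Pool.Agent.E8helper93.NM
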