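import Mathlib

/-!
Powers of pairwise non proportional linear forms are linearly independent on a grid.
-/

set_option autoImplicit false

namespace Pool.Agent.E8helper93.NM

open Finset

/-- The value of the linear form with coefficients `a`. -/
def ip {d p : ℕ} (a : Fin d → Fin (2 * p + 1)) (x : Fin d → ℝ) : ℝ := ∑ k, ((a k : ℕ) : ℝ) * x k

theorem binom_zero {ι : Type*} [Fintype ι] (n : ℕ) (hn : Fintype.card ι ≤ n + 1) (ν ρ : ι → ℝ)
    (hρ : Function.Injective ρ) (h : ∀ t : ℝ, ∑ s, ν s * (1 + ρ s * t) ^ n = 0) :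
    ∀ s, ν s = 0 := by
  have h1 : (∑ s, Polynomial.C (ν s) *
      (((1 : Polynomial ℝ) + Polynomial.X) ^ n).comp (Polynomial.C (ρ s) * Polynomial.X)) = 0 := by
    apply Polynomial.funext
    intro t
    rw [Polynomial.eval_zero, Polynomial.eval_finsetSum, ← h t]
    refine sum_congr rfl fun s _ => ?_
    simp
  have h2 : ∀ j, j ≤ n → ∑ s, ν s * ρ s ^ j = 0 := by
    intro j hj
    have h3 := congrArg (fun q => Polynomial.coeff q j) h1
    simp only [Polynomial.finsetSum_coeff, Polynomial.coeff_C_mul, Polynomial.comp_C_mul_X_coeff,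
      Polynomial.coeff_one_add_X_pow, Polynomial.coeff_zero] at h3
    have h4 : (n.choose j : ℝ) * ∑ s, ν s * ρ s ^ j = 0 := by
      rw [← h3, mul_sum]
      refine sum_congr rfl fun s _ => by ring
    rcases mul_eq_zero.1 h4 with h5 | h5
    · exfalso
      have : n.choose j ≠ 0 := (Nat.choose_pos hj).ne'
      exact this (by exact_mod_cast h5)
    · exact h5
  obtain ⟨e⟩ : Nonempty (ι ≃ Fin (Fintype.card ι)) := ⟨Fintype.equivFin ι⟩
  have h3 := Matrix.eq_zero_of_forall_pow_sum_mul_pow_eq_zero
    (f := fun i => ρ (e.symm i)) (v := fun i => ν (e.symm i))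
    (fun i j hij => e.symm.injective (hρ hij)) (fun i => by
      have h4 := h2 i (by omega)
      rw [← h4]
      exact Equiv.sum_comp e.symm (fun s => ν s * ρ s ^ (i : ℕ)))
  intro s
  have := congrFun h3 (e s)
  simpa using this

theorem ev_zero {d p : ℕ} {ι : Type*} [Fintype ι] (hι : Fintype.card ι ≤ 2 * p + 1)
    (u : ι → Fin d → ℝ) (h0 : ∀ s, u s ≠ 0) (hn : ∀ s t, s ≠ t → ∀ c : ℝ, u s ≠ c • u t)
    (μ : ι → ℝ)
    (h : ∀ a : Fin d → Fin (2 * p + 1), ∑ s, μ s * (ip a (u s)) ^ (2 * p) = 0) :
    ∀ s, μ s = 0 := by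
  classical
  -- the identity holds at all real points
  have hall : ∀ z : Fin d → ℝ, ∑ s, μ s * (∑ k, z k * u s k) ^ (2 * p) = 0 := by
    obtain ⟨P, hP⟩ : ∃ P : MvPolynomial (Fin d) ℝ, P = ∑ s, MvPolynomial.C (μ s) *
      (∑ k, MvPolynomial.X k * MvPolynomial.C (u s k)) ^ (2 * p) := ⟨_, rfl⟩
    have hev : ∀ z, MvPolynomial.eval z P = ∑ s, μ s * (∑ k, z k * u s k) ^ (2 * p) := by
      intro z
      rw [hP]
      simp
    have hz : P = 0 := by
      apply MvPolynomial.eq_zero_of_eval_zero_at_prod_finset P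
        (fun _ => Finset.image (fun i : Fin (2 * p + 1) => ((i : ℕ) : ℝ)) Finset.univ)
      · intro k
        rw [card_image_of_injective _ (fun i j hij => by
          have : (i : ℕ) = j := by exact_mod_cast hij
          exact Fin.ext this), card_univ, Fintype.card_fin]
        refine Nat.lt_succ_of_le ((MvPolynomial.degreeOf_le_totalDegree P k).trans ?_)
        rw [hP]
        apply MvPolynomial.totalDegree_finsetSum_le
        intro s _
        refine (MvPolynomial.totalDegree_mul _ _).trans ?_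
        rw [MvPolynomial.totalDegree_C, zero_add]
        refine (MvPolynomial.totalDegree_pow _ _).trans ?_
        have : (∑ k, MvPolynomial.X k * MvPolynomial.C (u s k) :
            MvPolynomial (Fin d) ℝ).totalDegree ≤ 1 := by
          apply MvPolynomial.totalDegree_finsetSum_le
          intro k _
          refine (MvPolynomial.totalDegree_mul _ _).trans ?_
          rw [MvPolynomial.totalDegree_C, MvPolynomial.totalDegree_X]
        calc 2 * p * _ ≤ 2 * p * 1 := Nat.mul_le_mul_left _ this
          _ = 2 * p := by ring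
      · intro z hz
        choose a ha using fun k => mem_image.1 (hz k)
        rw [hev, ← h a]
        refine sum_congr rfl fun s _ => ?_
        unfold ip
        congr 2
        refine sum_congr rfl fun k _ => ?_
        rw [(ha k).2]
    intro z
    rw [← hev, hz, map_zero]
  -- generic functionals
  obtain ⟨f, hf⟩ := Module.exists_dual_forall_apply_ne_zero (K := ℝ) u h0
  have hne : ∀ x : {x : ι × ι // x.1 ≠ x.2},
      (f (u x.1.1))⁻¹ • u x.1.1 - (f (u x.1.2))⁻¹ • u x.1.2 ≠ 0 := by
    rintro ⟨⟨s, t⟩, hst⟩ h1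
    apply hn s t hst (f (u s) * (f (u t))⁻¹)
    have h2 := sub_eq_zero.1 h1
    simp only at h2
    calc u s = f (u s) • ((f (u s))⁻¹ • u s) := by
          rw [smul_smul, mul_inv_cancel₀ (hf s), one_smul]
      _ = _ := by rw [h2, smul_smul]
  obtain ⟨g, hg⟩ := Module.exists_dual_forall_apply_ne_zero (K := ℝ) _ hne
  have hcoord : ∀ (q : (Fin d → ℝ) →ₗ[ℝ] ℝ) (x : Fin d → ℝ),
      q x = ∑ k, q (Pi.single k 1) * x k := by
    intro q x
    conv_lhs => rw [← Finset.univ_sum_single x]
    rw [map_sum]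
    refine sum_congr rfl fun k _ => ?_
    have : (Pi.single k (x k) : Fin d → ℝ) = x k • Pi.single k 1 := by
      rw [← Pi.single_smul, smul_eq_mul, mul_one]
    rw [this, map_smul, smul_eq_mul, mul_comm]
  have h5 : ∀ t : ℝ, ∑ s, (μ s * f (u s) ^ (2 * p)) * (1 + (g (u s) / f (u s)) * t) ^ (2 * p) = 0 := by
    intro t
    rw [← hall (fun k => f (Pi.single k 1) + t * g (Pi.single k 1))]
    refine sum_congr rfl fun s _ => ?_
    have h6 : ∑ k, (f (Pi.single k 1) + t * g (Pi.single k 1)) * u s k = f (u s) + t * g (u s) := by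
      rw [hcoord f (u s), hcoord g (u s), mul_sum, ← sum_add_distrib]
      exact sum_congr rfl fun k _ => by ring
    rw [h6, mul_assoc, ← mul_pow]
    congr 2
    have := hf s
    field_simp
  have h6 := binom_zero (2 * p) hι _ (fun s => g (u s) / f (u s)) (fun s t hst => by
    by_contra hne2
    apply hg ⟨(s, t), hne2⟩
    simp only at hst
    rw [map_sub, map_smul, map_smul, smul_eq_mul, smul_eq_mul, sub_eq_zero, ← div_eq_inv_mul,
      ← div_eq_inv_mul]
    exact hst) h5
  intro s
  rcases mul_eq_zero.1 (h6 s) with h7 | h7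
  · exact h7
  · exact absurd h7 (pow_ne_zero _ (hf s))

end Pool.Agent.E8helper93.NM
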