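import Pool.Agent.E8helper93.NM.Alg
import Pool.Agent.E8helper93.NM.Eval

/-!
Coincidences of the values of a generic sum of powers of linear forms: up to a number of directions
bounded by the transcendence degree of the vectors the values are different.
-/

set_option autoImplicit false

namespace Pool.Agent.E8helper93.NM

open Finset

/-- The generic form. -/
noncomputable def Fv {d p : ℕ} (c : (Fin d → Fin (2 * p + 1)) → ℝ) (x : Fin d → ℝ) : ℝ :=
  ∑ a, c a * (ip a x) ^ (2 * p)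

theorem ip_smul {d p : ℕ} (a : Fin d → Fin (2 * p + 1)) (t : ℝ) (x : Fin d → ℝ) :
    ip a (t • x) = t * ip a x := by
  unfold ip
  rw [mul_sum]
  exact sum_congr rfl fun k _ => by simp only [Pi.smul_apply, smul_eq_mul]; ring

theorem Fv_smul {d p : ℕ} (c : (Fin d → Fin (2 * p + 1)) → ℝ) (t : ℝ) (x : Fin d → ℝ) :
    Fv c (t • x) = t ^ (2 * p) * Fv c x := by
  unfold Fv
  rw [mul_sum]
  exact sum_congr rfl fun a _ => by rw [ip_smul, mul_pow]; ring

theorem ip_single {d p : ℕ} (hp : 1 ≤ p) (k : Fin d) (x : Fin d → ℝ) :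
    ip (p := p) (fun j => if j = k then ⟨1, by omega⟩ else ⟨0, by omega⟩) x = x k := by
  unfold ip
  rw [Finset.sum_eq_single k]
  · simp
  · intro j _ hj
    simp [hj]
  · intro h
    exact absurd (mem_univ k) h

theorem Fv_pos {d p : ℕ} (hp : 1 ≤ p) {c : (Fin d → Fin (2 * p + 1)) → ℝ} (hc : ∀ a, 0 < c a)
    {x : Fin d → ℝ} (hx : x ≠ 0) : 0 < Fv c x := by
  obtain ⟨k, hk⟩ := Function.ne_iff.1 hx
  unfold Fv
  have h1 : ∀ a, 0 ≤ c a * (ip a x) ^ (2 * p) := fun a =>
    mul_nonneg (hc a).le (by rw [pow_mul]; positivity)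
  refine sum_pos' (fun a _ => h1 a)
    ⟨fun j => if j = k then ⟨1, by omega⟩ else ⟨0, by omega⟩, mem_univ _, ?_⟩
  rw [ip_single hp]
  refine mul_pos (hc _) ?_
  have : x k ≠ 0 := hk
  rw [pow_mul]
  positivity

theorem rank_val {d p : ℕ} {c : (Fin d → Fin (2 * p + 1)) → ℝ} (hc : AlgebraicIndependent ℚ c)
    (Y : Finset ℝ) {ι : Type} [Fintype ι] (u : ι → Fin d → ℝ)
    (hK : ∀ s k, u s k ∈ acl (Y : Set ℝ)) (hcard : Fintype.card ι ≤ 2 * p + 1)
    (h0 : ∀ s, u s ≠ 0) (hn : ∀ s t, s ≠ t → ∀ r : ℝ, u s ≠ r • u t) :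
    Fintype.card ι ≤ Y.card + Module.finrank (acl (Y : Set ℝ))
      (Submodule.span (acl (Y : Set ℝ)) (Set.range fun s => Fv c (u s))) := by
  classical
  have hmem : ∀ s (a : Fin d → Fin (2 * p + 1)), (ip a (u s)) ^ (2 * p) ∈ acl (Y : Set ℝ) := by
    intro s a
    refine pow_mem ?_ _
    unfold ip
    exact sum_mem fun k _ => mul_mem (natCast_mem _ _) (hK s k)
  let ev : ι → (Fin d → Fin (2 * p + 1)) → acl (Y : Set ℝ) := fun s a => ⟨_, hmem s a⟩
  let φ := Fintype.linearCombination (acl (Y : Set ℝ)) c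
  let ψ := Fintype.linearCombination (acl (Y : Set ℝ)) ev
  have hψ : Function.Injective ψ := by
    rw [injective_iff_map_eq_zero]
    intro x hx
    have h1 : ∀ a : Fin d → Fin (2 * p + 1), ∑ s, (x s : ℝ) * (ip a (u s)) ^ (2 * p) = 0 := by
      intro a
      have h2 := congrFun hx a
      have h3 : (ψ x a : acl (Y : Set ℝ)) = ∑ s, x s * ev s a := by
        simp only [ψ, Fintype.linearCombination_apply, Finset.sum_apply, Pi.smul_apply, smul_eq_mul]
      rw [h3] at h2
      have h4 := congrArg (fun z : acl (Y : Set ℝ) => (z : ℝ)) h2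
      simp only [Pi.zero_apply, ZeroMemClass.coe_zero] at h4
      rw [← h4]
      push_cast
      rfl
    have h2 := ev_zero hcard u h0 hn (fun s => (x s : ℝ)) h1
    funext s
    exact Subtype.ext (h2 s)
  have hcomp : φ.comp ψ = Fintype.linearCombination (acl (Y : Set ℝ)) (fun s => Fv c (u s)) := by
    apply LinearMap.ext
    intro x
    have h1 : ∀ a, (ψ x) a = ∑ s, x s * ev s a := by
      intro a
      simp only [ψ, Fintype.linearCombination_apply, Finset.sum_apply, Pi.smul_apply, smul_eq_mul]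
    simp only [LinearMap.comp_apply, φ, Fintype.linearCombination_apply]
    calc ∑ a, (ψ x) a • c a = ∑ a, ∑ s, ((x s : ℝ) * (ip a (u s)) ^ (2 * p)) * c a := by
          refine sum_congr rfl fun a _ => ?_
          rw [h1, ← Finset.sum_mul]
          have : ((∑ s, x s * ev s a : acl (Y : Set ℝ)) • c a : ℝ) =
              ((∑ s, x s * ev s a : acl (Y : Set ℝ)) : ℝ) * c a := rfl
          rw [this]
          push_cast
          rfl
      _ = ∑ s, ∑ a, ((x s : ℝ) * (ip a (u s)) ^ (2 * p)) * c a := sum_comm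
      _ = _ := by
        refine sum_congr rfl fun s _ => ?_
        have : (x s • Fv c (u s) : ℝ) = (x s : ℝ) * Fv c (u s) := rfl
        rw [this]
        unfold Fv
        rw [mul_sum]
        exact sum_congr rfl fun a _ => by ring
  have h1 := card_le_finrank hc Y
  have h2 := LinearMap.finrank_range_add_finrank_ker φ
  have h3 := LinearMap.finrank_range_add_finrank_ker (φ.comp ψ)
  have h4 : Module.finrank (acl (Y : Set ℝ)) (LinearMap.ker (φ.comp ψ)) ≤
      Module.finrank (acl (Y : Set ℝ)) (LinearMap.ker φ) := by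
    have e1 : ∀ x ∈ LinearMap.ker (φ.comp ψ), ψ x ∈ LinearMap.ker φ := by
      intro x hx
      rw [LinearMap.mem_ker] at hx ⊢
      exact hx
    refine LinearMap.finrank_le_finrank_of_injective (f := ψ.restrict e1) ?_
    intro x y hxy
    apply Subtype.ext
    apply hψ
    exact congrArg Subtype.val hxy
  rw [Module.finrank_fintype_fun_eq_card] at h2 h3
  have h5 : LinearMap.range φ = Submodule.span (acl (Y : Set ℝ)) (Set.range c) :=
    Fintype.range_linearCombination _ _
  have h6 : LinearMap.range (φ.comp ψ) =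
      Submodule.span (acl (Y : Set ℝ)) (Set.range fun s => Fv c (u s)) := by
    rw [hcomp]
    exact Fintype.range_linearCombination _ _
  rw [h5] at h2
  rw [h6] at h3
  omega

theorem good {d p : ℕ} (hp : 1 ≤ p) {c : (Fin d → Fin (2 * p + 1)) → ℝ}
    (hc : AlgebraicIndependent ℚ c) (hpos : ∀ a, 0 < c a) (Y : Finset ℝ)
    (D : Finset (Fin d → ℝ)) (hK : ∀ v ∈ D, ∀ k, v k ∈ acl (Y : Set ℝ))
    (f g : (Fin d → ℝ) →ₗ[ℝ] ℝ) (hf : ∀ v ∈ D, f v ≠ 0)
    (hg : ∀ v ∈ D, ∀ w ∈ D, g v / f v = g w / f w → (f v)⁻¹ • v = (f w)⁻¹ • w)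
    (hcard : (D.image fun v => g v / f v).card ≤ 2 * p + 1)
    {s0 : ℝ} (hs0 : s0 ∈ D.image fun v => g v / f v) :
    ∃ G ⊆ D.image (fun v => g v / f v), s0 ∈ G ∧
      (D.image fun v => g v / f v).card ≤ G.card + Y.card ∧
      ∀ v ∈ D, ∀ w ∈ D, g v / f v ∈ G → g w / f w ∈ G → 0 < f v → 0 < f w →
        Fv c v = Fv c w → v = w := by
  classical
  obtain ⟨Sl, hSl⟩ : ∃ Sl, Sl = D.image (fun v => g v / f v) := ⟨_, rfl⟩
  rw [← hSl] at hcard hs0 ⊢
  have hex : ∀ s : Sl, ∃ v ∈ D, g v / f v = s := by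
    intro s
    have h1 : (s : ℝ) ∈ D.image (fun v => g v / f v) := by
      rw [← hSl]
      exact s.2
    exact mem_image.1 h1
  choose u hu1 hu2 using hex
  have hu0 : ∀ s, u s ≠ 0 := by
    intro s h
    apply hf _ (hu1 s)
    rw [h, map_zero]
  have hn : ∀ s t : Sl, s ≠ t → ∀ r : ℝ, u s ≠ r • u t := by
    intro s t hst r h
    apply hst
    apply Subtype.ext
    rw [← hu2 s, ← hu2 t, h, map_smul, map_smul, smul_eq_mul, smul_eq_mul]
    have hr : r ≠ 0 := by
      rintro rfl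
      exact hu0 s (by rw [h, zero_smul])
    rw [mul_div_mul_left _ _ hr]
  have hrank := rank_val hc Y u (fun s k => hK _ (hu1 s) k) (by rw [Fintype.card_coe]; exact hcard)
    hu0 hn
  rw [Fintype.card_coe] at hrank
  obtain ⟨val, hval⟩ : ∃ val : Sl → ℝ, val = fun s => Fv c (u s) := ⟨_, rfl⟩
  rw [← hval] at hrank
  have hvalpos : ∀ s, 0 < val s := fun s => by rw [hval]; exact Fv_pos hp hpos (hu0 s)
  obtain ⟨b, hb1, hb2, hb3, hb4⟩ := exists_linearIndepOn_id_extension
    (K := acl (Y : Set ℝ)) (s := {val ⟨s0, hs0⟩}) (t := Set.range val)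
    (LinearIndepOn.singleton (hvalpos _).ne') (by
      rw [Set.singleton_subset_iff]; exact ⟨_, rfl⟩)
  have hfin : b.Finite := (Set.finite_range val).subset hb1
  have hspan : Submodule.span (acl (Y : Set ℝ)) (Set.range val) =
      Submodule.span (acl (Y : Set ℝ)) b :=
    le_antisymm (Submodule.span_le.2 hb3) (Submodule.span_mono hb1)
  have hfr : Module.finrank (acl (Y : Set ℝ)) (Submodule.span (acl (Y : Set ℝ)) b) = b.ncard := by
    have : Fintype b := hfin.fintype
    rw [finrank_span_set_eq_card hb4, Set.ncard_eq_toFinset_card']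
  rw [hspan, hfr] at hrank
  -- a section of `val` over `b`
  have hsec : ∃ σ : ℝ → Sl, σ (val ⟨s0, hs0⟩) = ⟨s0, hs0⟩ ∧ ∀ z ∈ b, val (σ z) = z := by
    refine ⟨fun z => if z = val ⟨s0, hs0⟩ then ⟨s0, hs0⟩ else
      if h : z ∈ Set.range val then h.choose else ⟨s0, hs0⟩, ?_, ?_⟩
    · simp
    · intro z hz
      by_cases h1 : z = val ⟨s0, hs0⟩
      · simp only [h1, if_true]
      · simp only [h1, if_false]
        rw [dif_pos (hb1 hz)]
        exact (hb1 hz).choose_spec
  obtain ⟨σ, hσ0, hσ⟩ := hsec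
  obtain ⟨B, hB⟩ : ∃ B : Finset ℝ, B = hfin.toFinset := ⟨_, rfl⟩
  have hmemB : ∀ z, z ∈ B ↔ z ∈ b := fun z => by rw [hB, Set.Finite.mem_toFinset]
  refine ⟨B.image (fun z => (σ z : ℝ)), ?_, ?_, ?_, ?_⟩
  · intro x hx
    obtain ⟨z, _, rfl⟩ := mem_image.1 hx
    exact (σ z).2
  · refine mem_image.2 ⟨val ⟨s0, hs0⟩, ?_, ?_⟩
    · rw [hmemB]; exact hb2 rfl
    · rw [hσ0]
  · rw [card_image_of_injOn, show B.card = b.ncard by rw [hB, Set.ncard_eq_toFinset_card b hfin]]
    · omega
    · intro z hz z' hz' h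
      have h1 : σ z = σ z' := Subtype.ext h
      rw [← hσ z ((hmemB z).1 hz), ← hσ z' ((hmemB z').1 hz'), h1]
  · intro v hv w hw hvG hwG hfv hfw hFF
    obtain ⟨z, hz, hzv⟩ := mem_image.1 hvG
    obtain ⟨z', hz', hzw⟩ := mem_image.1 hwG
    rw [hmemB] at hz hz'
    obtain ⟨s, hs⟩ : ∃ s, s = σ z := ⟨_, rfl⟩
    obtain ⟨t, ht⟩ : ∃ t, t = σ z' := ⟨_, rfl⟩
    have hvals : val s = z := by rw [hs]; exact hσ z hz
    have hvalt : val t = z' := by rw [ht]; exact hσ z' hz'
    rw [← hs] at hzv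
    rw [← ht] at hzw
    -- scalars
    have hscal : ∀ (x : Fin d → ℝ) (r : Sl), x ∈ D → (r : ℝ) = g x / f x → 0 < f x →
        ∃ l : acl (Y : Set ℝ), x = (l : ℝ) • u r ∧ (l : ℝ) ≠ 0 ∧ (l : ℝ) = f x / f (u r) := by
      intro x r hx hr hfx
      have h1 := hg x hx (u r) (hu1 r) (by rw [← hr, hu2])
      have h2 : x = (f x / f (u r)) • u r := by
        calc x = f x • ((f x)⁻¹ • x) := by rw [smul_smul, mul_inv_cancel₀ hfx.ne', one_smul]
          _ = _ := by rw [h1, smul_smul, div_eq_mul_inv]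
      obtain ⟨k, hk⟩ := Function.ne_iff.1 (hu0 r)
      have hk' : u r k ≠ 0 := hk
      have h3 : f x / f (u r) = x k / u r k := by
        rw [eq_div_iff hk']
        conv_rhs => rw [h2]
        rfl
      refine ⟨⟨f x / f (u r), ?_⟩, h2, ?_, rfl⟩
      · rw [h3]
        exact div_mem (hK x hx k) (hK _ (hu1 r) k)
      · exact div_ne_zero hfx.ne' (hf _ (hu1 r))
    obtain ⟨l, hl1, hl2, hl3⟩ := hscal v s hv hzv hfv
    obtain ⟨m, hm1, hm2, hm3⟩ := hscal w t hw hzw hfw
    have hFv : Fv c v = (l : ℝ) ^ (2 * p) * val s := by rw [hl1, Fv_smul, hval]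
    have hFw : Fv c w = (m : ℝ) ^ (2 * p) * val t := by rw [hm1, Fv_smul, hval]
    rw [hFv, hFw] at hFF
    by_cases hst : s = t
    · subst hst
      have h1 : (l : ℝ) ^ (2 * p) = (m : ℝ) ^ (2 * p) := mul_right_cancel₀ (hvalpos s).ne' hFF
      have h2 : |(l : ℝ)| = |(m : ℝ)| := by
        have h3 : |(l : ℝ)| ^ (2 * p) = |(m : ℝ)| ^ (2 * p) := by
          rw [← abs_pow, ← abs_pow, h1]
        exact (pow_left_inj₀ (abs_nonneg _) (abs_nonneg _) (by omega)).1 h3
      have h3 : (l : ℝ) = m := by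
        rcases abs_eq_abs.1 h2 with h | h
        · exact h
        · exfalso
          rw [hl3, hm3, ← neg_div] at h
          have h4 : f (u s) ≠ 0 := hf _ (hu1 s)
          rw [div_left_inj' h4] at h
          linarith
      rw [hl1, hm1, h3]
    · exfalso
      have hzz : z ≠ z' := by
        intro h
        apply hst
        rw [hs, ht, h]
      rw [hvals, hvalt] at hFF
      have h0 : LinearIndepOn (acl (Y : Set ℝ)) id {z, z'} := hb4.mono (by
        intro q hq
        rcases hq with rfl | hq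
        · exact hz
        · rw [Set.mem_singleton_iff.1 hq]; exact hz')
      have h1 := (LinearIndepOn.pair_iff id hzz).1 h0 (l ^ (2 * p)) (-(m ^ (2 * p))) (by
          have e1 : ((l ^ (2 * p)) • id z : ℝ) = (l : ℝ) ^ (2 * p) * z := rfl
          have e2 : ((-(m ^ (2 * p))) • id z' : ℝ) = -(m : ℝ) ^ (2 * p) * z' := by
            rfl
          rw [e1, e2, hFF]
          ring)
      have h2 : (l : ℝ) ^ (2 * p) = 0 := by
        have := congrArg (fun q : acl (Y : Set ℝ) => (q : ℝ)) h1.1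
        simpa using this
      exact hl2 (pow_eq_zero_iff (by omega) |>.1 h2)

end Pool.Agent.E8helper93.NM
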