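import Mathlib

/-!
An edge isoperimetric inequality: a set of at most `2 ^ k` elements of a rational vector space has
at most `k` edges per element in the graph of the translations by linearly independent vectors.
-/

set_option autoImplicit false

namespace Pool.Agent.E8helper93.NM

open Finset

variable {E : Type*} [AddCommGroup E] [Module ℚ E] [DecidableEq E]

theorem exists_coord {ι : Type*} {x : ι → E} (hx : LinearIndependent ℚ x) (i : ι) :
    ∃ f : E →ₗ[ℚ] ℚ, f (x i) = 1 ∧ ∀ j, j ≠ i → f (x j) = 0 := by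
  classical
  obtain ⟨f, hf⟩ := LinearMap.exists_extend ((Finsupp.lapply i).comp hx.repr)
  have h : ∀ j, f (x j) = (Finsupp.single j (1 : ℚ)) i := by
    intro j
    have h1 : x j ∈ Submodule.span ℚ (Set.range x) := Submodule.subset_span ⟨j, rfl⟩
    have h2 : f (x j) = (f.comp (Submodule.span ℚ (Set.range x)).subtype) ⟨x j, h1⟩ := rfl
    rw [h2, hf, LinearMap.comp_apply, hx.repr_eq_single j ⟨x j, h1⟩ rfl]
    rfl
  refine ⟨f, ?_, fun j hj => ?_⟩
  · rw [h, Finsupp.single_eq_same]
  · rw [h, Finsupp.single_eq_of_ne (Ne.symm hj)]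

/-- Number of edges of the set `A`. -/
def edges {ι : Type*} [Fintype ι] (x : ι → E) (A : Finset E) : ℕ :=
  ∑ i, (A.filter (fun a => a + x i ∈ A)).card

theorem iso {ι : Type*} [Fintype ι] {x : ι → E} (hx : LinearIndependent ℚ x) :
    ∀ (n k : ℕ) (A : Finset E), A.card = n → n ≤ 2 ^ k → edges x A ≤ k * n := by
  classical
  intro n
  induction n using Nat.strong_induction_on with
  | _ n ih =>
  intro k A hA hk
  by_cases h0 : ∀ i, A.filter (fun a => a + x i ∈ A) = ∅
  · unfold edges
    rw [Finset.sum_eq_zero (fun i _ => by rw [h0 i]; rfl)]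
    exact Nat.zero_le _
  push Not at h0
  obtain ⟨i, a, ha⟩ := h0
  rw [mem_filter] at ha
  obtain ⟨ha, hai⟩ := ha
  obtain ⟨f, hf1, hf0⟩ := exists_coord hx i
  obtain ⟨A1, hA1⟩ : ∃ A1, A1 = A.filter (fun z => f z ≤ f a) := ⟨_, rfl⟩
  obtain ⟨A2, hA2⟩ : ∃ A2, A2 = A.filter (fun z => ¬ f z ≤ f a) := ⟨_, rfl⟩
  have hcard : A1.card + A2.card = n := by
    rw [hA1, hA2, ← hA]
    exact card_filter_add_card_filter_not _
  have h1 : 0 < A1.card := card_pos.2 ⟨a, by rw [hA1, mem_filter]; exact ⟨ha, le_rfl⟩⟩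
  have h2 : 0 < A2.card := card_pos.2 ⟨a + x i, by
    rw [hA2, mem_filter]
    refine ⟨hai, ?_⟩
    rw [map_add, hf1]
    linarith⟩
  have hk1 : 1 ≤ k := by
    rcases Nat.eq_zero_or_pos k with h | h
    · rw [h] at hk; omega
    · exact h
  obtain ⟨l, rfl⟩ : ∃ l, k = l + 1 := ⟨k - 1, by omega⟩
  -- the crossing edges
  have hcross : ∀ j, (A.filter (fun z => z + x j ∈ A)).card ≤
      (A1.filter (fun z => z + x j ∈ A1)).card + (A2.filter (fun z => z + x j ∈ A2)).card +
      (if j = i then (A1.filter (fun z => z + x i ∈ A2)).card else 0) := by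
    intro j
    have hsub : A.filter (fun z => z + x j ∈ A) ⊆
        (A1.filter (fun z => z + x j ∈ A1) ∪ A2.filter (fun z => z + x j ∈ A2)) ∪
        (if j = i then (A1.filter (fun z => z + x i ∈ A2)) else ∅) := by
      intro z hz
      rw [mem_filter] at hz
      obtain ⟨hz, hzj⟩ := hz
      rw [mem_union, mem_union, mem_filter, mem_filter, hA1, hA2, mem_filter, mem_filter,
        mem_filter, mem_filter, map_add]
      by_cases hj : j = i
      · subst hj
        rw [if_pos rfl, mem_filter, mem_filter, mem_filter, map_add, hf1]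
        by_cases c1 : f z ≤ f a
        · by_cases c2 : f z + 1 ≤ f a
          · exact Or.inl (Or.inl ⟨⟨hz, c1⟩, hzj, c2⟩)
          · exact Or.inr ⟨⟨hz, c1⟩, hzj, c2⟩
        · exact Or.inl (Or.inr ⟨⟨hz, c1⟩, hzj, by linarith⟩)
      · rw [hf0 j hj, add_zero]
        by_cases c1 : f z ≤ f a
        · exact Or.inl (Or.inl ⟨⟨hz, c1⟩, hzj, c1⟩)
        · exact Or.inl (Or.inr ⟨⟨hz, c1⟩, hzj, c1⟩)
    refine (card_le_card hsub).trans ((card_union_le _ _).trans ?_)
    refine Nat.add_le_add (card_union_le _ _) ?_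
    by_cases hj : j = i
    · rw [if_pos hj, if_pos hj]
    · rw [if_neg hj, if_neg hj, card_empty]
  have hsum : edges x A ≤ edges x A1 + edges x A2 + (A1.filter (fun z => z + x i ∈ A2)).card := by
    unfold edges
    calc ∑ j, (A.filter (fun z => z + x j ∈ A)).card
        ≤ ∑ j, ((A1.filter (fun z => z + x j ∈ A1)).card +
          (A2.filter (fun z => z + x j ∈ A2)).card +
          (if j = i then (A1.filter (fun z => z + x i ∈ A2)).card else 0)) :=
          sum_le_sum fun j _ => hcross j
      _ = _ := by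
        rw [sum_add_distrib, sum_add_distrib, Finset.sum_ite_eq' univ i, if_pos (mem_univ i)]
  have hc1 : (A1.filter (fun z => z + x i ∈ A2)).card ≤ A1.card := card_filter_le _ _
  have hc2 : (A1.filter (fun z => z + x i ∈ A2)).card ≤ A2.card := by
    refine card_le_card_of_injOn (fun z => z + x i) (fun z hz => ?_) (fun z _ w _ h => ?_)
    · exact (mem_filter.1 (mem_coe.1 hz)).2
    · exact add_right_cancel h
  rcases le_total A1.card A2.card with h | h
  · have e1 := ih A1.card (by omega) l A1 rfl (by rw [pow_succ] at hk; omega)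
    have e2 := ih A2.card (by omega) (l + 1) A2 rfl (by omega)
    calc edges x A ≤ l * A1.card + (l + 1) * A2.card + A1.card := by omega
      _ = (l + 1) * n := by rw [← hcard]; ring
  · have e1 := ih A1.card (by omega) (l + 1) A1 rfl (by omega)
    have e2 := ih A2.card (by omega) l A2 rfl (by rw [pow_succ] at hk; omega)
    calc edges x A ≤ (l + 1) * A1.card + l * A2.card + A2.card := by omega
      _ = (l + 1) * n := by rw [← hcard]; ring

end Pool.Agent.E8helper93.NM
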