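import Pool.Agent.E8helper93.NM.Count

/-!
The number of values of a generic form on the differences of a large finite set.
-/

set_option autoImplicit false

namespace Pool.Agent.E8helper93.NM

open Finset

variable {d : ℕ} {P : Finset (Fin d → ℝ)} {f g : (Fin d → ℝ) →ₗ[ℝ] ℝ}

theorem card_Df_le (P : Finset (Fin d → ℝ)) : (Df P).card ≤ P.card ^ 2 := by
  unfold Df
  refine (card_erase_le).trans (card_image_le.trans ?_)
  rw [card_product, sq]

/-- The consequences of genericity. -/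
theorem key {q : ℕ} (hq : 1 ≤ q) {c : (Fin d → Fin (2 * q + 1)) → ℝ}
    (hc : AlgebraicIndependent ℚ c) (hpos : ∀ a, 0 < c a) (hn : P.card ^ 2 ≤ 2 * q + 1)
    (hG : Gen P f g) {H : ℕ} {p : ℕ → Fin d → ℝ}
    (hall : ∀ v ∈ P, ∀ k, v k ∈ acl (cs p (H + 1) : Set ℝ)) {θ : ℝ}
    (hθ : θ ∈ (Df P).image (fun v => g v / f v)) :
    ∃ B : Finset ℝ, θ ∉ B ∧ B.card ≤ H * d ∧
      (Vp (P.image (pr f g)) B).card ≤ ((Df P).image (Fv c)).card ∧
      ((Df P).image (fun v => g v / f v)).card ≤ H * d + ((Df P).image (Fv c)).card := by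
  classical
  have hY : (cs p (H + 1)).card ≤ H * d := by
    have := card_cs p (H + 1)
    simpa using this
  obtain ⟨G, hG1, hG2, hG3, hG4⟩ := good hq hc hpos (cs p (H + 1)) (Df P) (by
      intro v hv k
      obtain ⟨_, x, hx, y, hy, rfl⟩ := mem_Df.1 hv
      exact sub_mem (hall x hx k) (hall y hy k)) f g hG.hf hG.hg
    (card_image_le.trans ((card_Df_le P).trans hn)) hθ
  obtain ⟨S, hS⟩ : ∃ S, S = (Df P).image (fun v => g v / f v) := ⟨_, rfl⟩
  rw [← hS] at hG1 hG3 hθ ⊢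
  have hDp : (((Df P).filter (fun v => g v / f v ∈ G ∧ 0 < f v))).card ≤
      ((Df P).image (Fv c)).card := by
    refine card_le_card_of_injOn (Fv c) ?_ ?_
    · intro v hv
      exact mem_image_of_mem _ (mem_filter.1 hv).1
    · intro v hv w hw he
      obtain ⟨h1, h2, h3⟩ := mem_filter.1 hv
      obtain ⟨h4, h5, h6⟩ := mem_filter.1 hw
      exact hG4 v h1 w h4 h2 h5 h3 h6 he
  have hG5 : G.card ≤ (((Df P).filter (fun v => g v / f v ∈ G ∧ 0 < f v))).card := by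
    have h1 : G ⊆ (((Df P).filter (fun v => g v / f v ∈ G ∧ 0 < f v))).image
        (fun v => g v / f v) := by
      intro s hs
      have h2 := hG1 hs
      rw [hS] at h2
      obtain ⟨v, hv, hvs⟩ := mem_image.1 h2
      have h3 := hG.hf v hv
      rcases lt_or_gt_of_ne h3 with h4 | h4
      · refine mem_image.2 ⟨-v, mem_filter.2 ⟨neg_mem_Df hv, ?_, ?_⟩, ?_⟩
        · rw [map_neg, map_neg, neg_div_neg_eq, hvs]
          exact hs
        · rw [map_neg]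
          linarith
        · rw [map_neg, map_neg, neg_div_neg_eq, hvs]
      · exact mem_image.2 ⟨v, mem_filter.2 ⟨hv, by rw [hvs]; exact hs, h4⟩, hvs⟩
    exact (card_le_card h1).trans card_image_le
  refine ⟨S \ G, ?_, ?_, ?_, ?_⟩
  · intro h
    exact (mem_sdiff.1 h).2 hG2
  · have := card_sdiff_add_card_eq_card hG1
    omega
  · refine le_trans ?_ hDp
    have h1 : Vp (P.image (pr f g)) (S \ G) ⊆
        (((Df P).filter (fun v => g v / f v ∈ G ∧ 0 < f v))).image (pr f g) := by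
      intro v hv
      obtain ⟨⟨x', hx', y', hy', rfl⟩, h2, h3⟩ := mem_Vp.1 hv
      obtain ⟨x, hx, rfl⟩ := mem_image.1 hx'
      obtain ⟨y, hy, rfl⟩ := mem_image.1 hy'
      rw [← pr_sub] at h2 h3 ⊢
      have h4 : x - y ∈ Df P := by
        apply sub_mem_Df hx hy
        rintro rfl
        rw [sub_self] at h2
        have : pr f g 0 = 0 := by unfold pr; rw [map_zero, map_zero]; rfl
        rw [this] at h2
        exact lt_irrefl _ h2
      refine mem_image_of_mem _ (mem_filter.2 ⟨h4, ?_, h2⟩)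
      by_contra h5
      apply h3
      refine mem_sdiff.2 ⟨?_, h5⟩
      rw [hS]
      exact mem_image_of_mem _ h4
    exact (card_le_card h1).trans card_image_le
  · omega

/-- A long chain. -/
theorem dense {q : ℕ} (hq : 1 ≤ q) {c : (Fin d → Fin (2 * q + 1)) → ℝ}
    (hc : AlgebraicIndependent ℚ c) (hpos : ∀ a, 0 < c a) (hn : P.card ^ 2 ≤ 2 * q + 1)
    (hG : Gen P f g) {H : ℕ} {p : ℕ → Fin d → ℝ} (hch : IsCh P p H)
    (hall : ∀ v ∈ P, ∀ k, v k ∈ acl (cs p (H + 1) : Set ℝ)) {a : ℕ} (ha : 2 * d + 1 ≤ a)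
    (hna : P.card ≤ 2 * a ^ 2) (hH : 5 * a ≤ H) :
    P.card ≤ ((Df P).image (Fv c)).card + 1 := by
  classical
  by_contra hcon
  push Not at hcon
  obtain ⟨T, hT⟩ : ∃ T, T = ((Df P).image (Fv c)).card := ⟨_, rfl⟩
  rw [← hT] at hcon
  have hs : ∀ θ : ℝ, ∀ I : Finset ℕ, (∀ i ∈ I, i ≤ H) →
      (∀ i ∈ I, ∀ j ∈ I, i ≠ j → g (p i - p j) / f (p i - p j) = θ) → I.card ≤ 2 * a + 1 := by
    intro θ I hI1 hI2
    by_contra hlt
    push Not at hlt
    obtain ⟨i, hi, j, hj, hij⟩ := one_lt_card.1 (show 1 < I.card by omega)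
    have hθ : θ ∈ (Df P).image (fun v => g v / f v) := by
      rw [← hI2 i hi j hj hij]
      refine mem_image_of_mem _ (sub_mem_Df (hch.2.1 _ (hI1 _ hi)) (hch.2.1 _ (hI1 _ hj)) ?_)
      intro he
      exact hij (hch.inj (hI1 _ hi) (hI1 _ hj) he)
    obtain ⟨B, hB1, _, hB3, _⟩ := key hq hc hpos hn hG hall hθ
    have h1 := chain_line hG hch hB1 I hI1 hI2
    rw [← hT] at hB3
    nlinarith
  have h1 := card_Sl hG hch hs (H - 2 * a) (by omega)
  have h2 : 2 * a + 1 + (H - 2 * a) = H + 1 := by omega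
  rw [h2] at h1
  have h3 : Sl f g p (H + 1) ⊆ (Df P).image (fun v => g v / f v) := by
    intro s hs
    obtain ⟨i, hi, j, hj, hij, rfl⟩ := mem_Sl.1 hs
    refine mem_image_of_mem _ (sub_mem_Df (hch.2.1 _ (by omega)) (hch.2.1 _ (by omega)) ?_)
    intro he
    exact hij (hch.inj (by omega) (by omega) he)
  have h4 : ∃ θ, θ ∈ (Df P).image (fun v => g v / f v) := by
    refine ⟨g (p 1 - p 0) / f (p 1 - p 0), h3 (mem_Sl.2 ⟨1, by omega, 0, by omega, by omega, rfl⟩)⟩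
  obtain ⟨θ, hθ⟩ := h4
  obtain ⟨_, _, _, _, h5⟩ := key hq hc hpos hn hG hall hθ
  rw [← hT] at h5
  have h6 := card_le_card h3
  obtain ⟨t, ht⟩ : ∃ t, t = H - 2 * a := ⟨_, rfl⟩
  have ht2 : H = t + 2 * a := by omega
  have ht3 : 3 * a ≤ t := by omega
  rw [← ht] at h1
  rw [ht2] at h5
  have h7 : t * (t + 1) ≤ 2 * ((t + 2 * a) * d + T) := by omega
  have h8 : 2 * T + 4 ≤ 4 * a ^ 2 := by omega
  nlinarith [Nat.mul_le_mul_left t ht3, Nat.mul_le_mul_left t ha, Nat.mul_le_mul_left a ht3,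
    Nat.mul_le_mul_right d ht3]

/-- A short chain. -/
theorem thin {q : ℕ} (hq : 1 ≤ q) {c : (Fin d → Fin (2 * q + 1)) → ℝ}
    (hc : AlgebraicIndependent ℚ c) (hpos : ∀ a, 0 < c a) (hn : P.card ^ 2 ≤ 2 * q + 1)
    (hG : Gen P f g) {H : ℕ} {p : ℕ → Fin d → ℝ}
    (hall : ∀ v ∈ P, ∀ k, v k ∈ acl (cs p (H + 1) : Set ℝ)) (hP2 : 2 ≤ P.card)
    (hcase : (∃ θ t, 2 * (H * d) + 2 ≤ ((P.image (pr f g)).filter (fun y => ht θ y = t)).card) ∨
      (2 * (H * d) + 1) * (4 * (H * d) ^ 2 + 1) ≤ P.card) :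
    P.card ≤ ((Df P).image (Fv c)).card + 1 := by
  classical
  by_cases hA : ∃ θ t, 2 * (H * d) + 2 ≤ ((P.image (pr f g)).filter (fun y => ht θ y = t)).card
  · obtain ⟨θ, t, hθt⟩ := hA
    have hθ : θ ∈ (Df P).image (fun v => g v / f v) := by
      obtain ⟨u, hu, v, hv, huv⟩ := one_lt_card.1
        (show 1 < ((P.image (pr f g)).filter (fun y => ht θ y = t)).card by omega)
      rw [mem_filter] at hu hv
      obtain ⟨x, hx, rfl⟩ := mem_image.1 hu.1
      obtain ⟨y, hy, rfl⟩ := mem_image.1 hv.1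
      have hxy : x ≠ y := fun h => huv (by rw [h])
      have h1 := sub_mem_Df hx hy hxy
      refine mem_image.2 ⟨x - y, h1, ?_⟩
      have h2 : ht θ (pr f g (x - y)) = 0 := by rw [pr_sub, ht_sub, hu.2, hv.2, sub_self]
      exact slope_of_ht h2 (hG.hf _ h1)
    obtain ⟨B, hB1, hB2, hB3, _⟩ := key hq hc hpos hn hG hall hθ
    have h1 := levels hG.hx (B := B) hB1 (t := t) (by omega)
    rw [hG.card_image] at h1
    omega
  · have hcase' := hcase.resolve_left hA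
    push Not at hA
    obtain ⟨x, hx, y, hy, hxy⟩ := one_lt_card.1 (show 1 < P.card by omega)
    obtain ⟨B, hB1, hB2, hB3, _⟩ := key hq hc hpos hn hG hall
      (mem_image_of_mem (fun v => g v / f v) (sub_mem_Df hx hy hxy))
    have h1 := short hG.hx B (m := 2 * (H * d) + 1) (fun θ t => by have := hA θ t; omega) (by
      rw [hG.card_image]
      refine le_trans ?_ hcase'
      apply Nat.mul_le_mul_left
      have h2 : 2 * (H * d) + 1 - 1 = 2 * (H * d) := by omega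
      rw [h2]
      have h3 := Nat.mul_le_mul_right (2 * (H * d)) (Nat.mul_le_mul_left 2 hB2)
      nlinarith)
    rw [hG.card_image] at h1
    omega

theorem arith {J X B M k a b n bad : ℝ} (r1 : 1 ≤ b) (r2 : a ^ 2 ≤ n) (r3 : n ≤ 2 * a ^ 2)
    (r4 : 128 * b * k ≤ a) (r5 : 1152 * 128 * b ^ 2 * (1 + b ^ 2) ≤ k) (k0 : 0 ≤ k) (a0 : 0 ≤ a)
    (X0 : 0 ≤ X) (r6 : X ≤ 8 * k) (B0 : 0 ≤ B) (r7 : B ≤ b * a) (r8 : J * (4 * b) ≤ a)
    (r9 : a ≤ 8 * b * J) (M0 : 0 ≤ M) (r10 : M ≤ b * a)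
    (r11 : 8 * k * n ≤ 8 * k + bad + k * (3 * n)) (r12 : 64 ≤ n) (J0 : 0 < J)
    (h2 : J ^ 2 * bad ≤ J ^ 2 * (J * (X * B) + M * X ^ 2) + 2 * (576 * (n ^ 2 + M ^ 2 * n))) :
    False := by
  have b0 : 0 ≤ b := by linarith
  have n0 : 0 ≤ n := by linarith
  have s1 : J * (X * B) ≤ 2 * k * n := by
    calc J * (X * B) ≤ J * ((8 * k) * (b * a)) := by gcongr
      _ = 2 * k * ((J * (4 * b)) * a) := by ring
      _ ≤ 2 * k * (a * a) := by gcongr
      _ = 2 * k * a ^ 2 := by ring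
      _ ≤ 2 * k * n := by gcongr
  have s2 : M * X ^ 2 ≤ k * n / 2 := by
    calc M * X ^ 2 ≤ (b * a) * (8 * k) ^ 2 := by gcongr
      _ = k * a * (128 * b * k) / 2 := by ring
      _ ≤ k * a * a / 2 := by gcongr
      _ = k * a ^ 2 / 2 := by ring
      _ ≤ k * n / 2 := by gcongr
  have s3 : 2 * (576 * (n ^ 2 + M ^ 2 * n)) ≤ J ^ 2 * (k * n) := by
    have e1 : n ^ 2 ≤ n * (2 * a ^ 2) := by
      rw [sq n]
      gcongr
    have e2 : M ^ 2 * n ≤ (b * a) ^ 2 * n := by gcongr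
    have e3 : 1152 * 64 * b ^ 2 * (2 + b ^ 2) ≤ k := by
      refine le_trans ?_ r5
      have e4 : 1152 * 128 * b ^ 2 * (1 + b ^ 2) - 1152 * 64 * b ^ 2 * (2 + b ^ 2) =
        1152 * 64 * (b ^ 2) ^ 2 := by ring
      have e5 : 0 ≤ 1152 * 64 * (b ^ 2) ^ 2 := by positivity
      linarith
    calc 2 * (576 * (n ^ 2 + M ^ 2 * n)) ≤ 2 * (576 * (n * (2 * a ^ 2) + (b * a) ^ 2 * n)) := by
          linarith
      _ = 1152 * (2 + b ^ 2) * n * a ^ 2 := by ring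
      _ ≤ 1152 * (2 + b ^ 2) * n * (8 * b * J) ^ 2 := by gcongr
      _ = J ^ 2 * ((1152 * 64 * b ^ 2 * (2 + b ^ 2)) * n) := by ring
      _ ≤ J ^ 2 * (k * n) := by gcongr
  have s4 : J ^ 2 * bad ≤ J ^ 2 * (2 * k * n + k * n / 2 + k * n) := by
    have e1 : J ^ 2 * (J * (X * B) + M * X ^ 2) ≤ J ^ 2 * (2 * k * n + k * n / 2) := by gcongr
    have e2 : J ^ 2 * (2 * k * n + k * n / 2 + k * n) = J ^ 2 * (2 * k * n + k * n / 2) +
      J ^ 2 * (k * n) := by ring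
    linarith
  have s5 : bad ≤ 2 * k * n + k * n / 2 + k * n := le_of_mul_le_mul_left s4 (by positivity)
  have b2 : 1 ≤ b ^ 2 := one_le_pow₀ r1
  have k1 : 1 ≤ k := by
    refine le_trans ?_ r5
    nlinarith
  have e9 : k * 64 ≤ k * n := mul_le_mul_of_nonneg_left r12 k0
  nlinarith

/-- A chain of intermediate length. -/
theorem middle {q : ℕ} (hq : 1 ≤ q) {c : (Fin d → Fin (2 * q + 1)) → ℝ}
    (hc : AlgebraicIndependent ℚ c) (hpos : ∀ a, 0 < c a) (hn : P.card ^ 2 ≤ 2 * q + 1)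
    (hG : Gen P f g) {H : ℕ} {p : ℕ → Fin d → ℝ} (hch : IsCh P p H)
    (hall : ∀ v ∈ P, ∀ k, v k ∈ acl (cs p (H + 1) : Set ℝ)) {a k b : ℕ} (hb : 1 ≤ b)
    (ha : a ^ 2 ≤ P.card) (hna : P.card ≤ 2 * a ^ 2) (hH : 8 * k ≤ H)
    (hk : 3 * P.card ≤ 2 ^ k) (hHd : H * d ≤ b * a) (hM : 2 * (H * d) + 1 ≤ b * a)
    (hka : 128 * b * k ≤ a) (hab : 8 * b ≤ a) (hkb : 1152 * 128 * b ^ 2 * (1 + b ^ 2) ≤ k)
    (hlines : ∀ θ t, ((P.image (pr f g)).filter (fun y => ht θ y = t)).card ≤ 2 * (H * d) + 1) :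
    P.card ≤ ((Df P).image (Fv c)).card + 1 := by
  classical
  by_contra hcon
  push Not at hcon
  have ha8 : 8 ≤ a := by omega
  have hn64 : 64 ≤ P.card := by nlinarith
  obtain ⟨x, hx, y, hy, hxy⟩ := one_lt_card.1 (show 1 < P.card by omega)
  obtain ⟨B, hB1, hB2, hB3, _⟩ := key hq hc hpos hn hG hall
    (mem_image_of_mem (fun v => g v / f v) (sub_mem_Df hx hy hxy))
  obtain ⟨V, hV⟩ : ∃ V, V = (Vp (P.image (pr f g)) B).card := ⟨_, rfl⟩
  obtain ⟨n, hn'⟩ : ∃ n, n = P.card := ⟨_, rfl⟩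
  have hVn : 2 * V + P.card ≤ 3 * P.card := by omega
  have h1 := sparse hG hch hH B (k := k) (by omega)
  obtain ⟨X, hX⟩ : ∃ X, X = (range (8 * k)).image (fun i => pr f g (p (i + 1))) := ⟨_, rfl⟩
  have hXc : X.card ≤ 8 * k := by
    rw [hX]
    exact card_image_le.trans (by rw [card_range])
  have hXQ : X ⊆ P.image (pr f g) := by
    intro z hz
    rw [hX] at hz
    obtain ⟨i, hi, rfl⟩ := mem_image.1 hz
    rw [mem_range] at hi
    exact mem_image_of_mem _ (hch.2.1 _ (by omega))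
  rw [← hX] at h1
  obtain ⟨J, hJ⟩ : ∃ J, J = a / (4 * b) := ⟨_, rfl⟩
  have hJ2 : 2 ≤ J := by
    rw [hJ, Nat.le_div_iff_mul_le (by omega)]
    omega
  have hJa : J * (4 * b) ≤ a := by
    rw [hJ]
    exact Nat.div_mul_le_self _ _
  have haJ : a ≤ 8 * b * J := by
    have h2 : a < (J + 1) * (4 * b) := by
      rw [hJ]
      exact (Nat.div_lt_iff_lt_mul (by omega)).1 (Nat.lt_succ_self _)
    have h3 : (J + 1) * (4 * b) ≤ (J + J) * (4 * b) := Nat.mul_le_mul_right _ (by omega)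
    have h4 : (J + J) * (4 * b) = 8 * b * J := by ring
    omega
  obtain ⟨M, hMd⟩ : ∃ M, M = 2 * (H * d) + 1 := ⟨_, rfl⟩
  rw [← hMd] at hM hlines
  have h2 := bad_pairs hG.hx hXQ B hJ2 hlines
  obtain ⟨bad, hbad⟩ : ∃ bad, bad = (badp (P.image (pr f g)) X B).card := ⟨_, rfl⟩
  rw [hG.card_image, ← hbad, ← hn'] at h2
  rw [← hbad, ← hV, ← hn'] at h1
  rw [← hn'] at ha hna hVn hn64
  have h3 : 8 * k * n ≤ 8 * k + bad + k * (3 * n) :=
    h1.trans (Nat.add_le_add_left (Nat.mul_le_mul_left k hVn) _)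
  -- real inequalities
  have r1 : (1 : ℝ) ≤ b := by exact_mod_cast hb
  have r2 : (a : ℝ) ^ 2 ≤ n := by exact_mod_cast ha
  have r3 : (n : ℝ) ≤ 2 * (a : ℝ) ^ 2 := by exact_mod_cast hna
  have r4 : 128 * (b : ℝ) * k ≤ a := by exact_mod_cast hka
  have r5 : 1152 * 128 * (b : ℝ) ^ 2 * (1 + (b : ℝ) ^ 2) ≤ k := by exact_mod_cast hkb
  have r6 : (X.card : ℝ) ≤ 8 * k := by exact_mod_cast hXc
  have r7 : (B.card : ℝ) ≤ b * a := by exact_mod_cast hB2.trans hHd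
  have r8 : (J : ℝ) * (4 * b) ≤ a := by exact_mod_cast hJa
  have r9 : (a : ℝ) ≤ 8 * b * J := by exact_mod_cast haJ
  have r10 : (M : ℝ) ≤ b * a := by exact_mod_cast hM
  have r11 : 8 * (k : ℝ) * n ≤ 8 * k + bad + k * (3 * n) := by exact_mod_cast h3
  have r12 : (64 : ℝ) ≤ n := by exact_mod_cast hn64
  exact arith r1 r2 r3 r4 r5 (Nat.cast_nonneg _) (Nat.cast_nonneg _) (Nat.cast_nonneg _) r6
    (Nat.cast_nonneg _) r7 r8 r9 (Nat.cast_nonneg _) r10 r11 r12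
    (by exact_mod_cast (show 0 < J by omega)) h2

theorem exists_large (C : ℕ) : ∃ N, ∀ n, N ≤ n → C ≤ Nat.log 2 n ∧
    C * (Nat.log 2 n + 3) ^ 2 ≤ Nat.sqrt n := by
  have h1 := tendsto_pow_const_div_const_pow_of_one_lt 2 (r := (2 : ℝ)) (by norm_num)
  have h2 : ∀ᶠ u : ℕ in Filter.atTop, (u : ℝ) ^ 2 / 2 ^ u < 1 / (32 * C + 1) := by
    apply h1.eventually_lt_const
    positivity
  obtain ⟨u0, hu0⟩ := Filter.eventually_atTop.1 h2
  refine ⟨2 ^ (2 * (u0 + C)), fun n hn => ?_⟩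
  have hn0 : n ≠ 0 := by
    have : 0 < 2 ^ (2 * (u0 + C)) := by positivity
    omega
  obtain ⟨L, hL⟩ : ∃ L, L = Nat.log 2 n := ⟨_, rfl⟩
  have hL1 : 2 * (u0 + C) ≤ L := by
    rw [hL]
    exact Nat.le_log_of_pow_le (by norm_num) hn
  rw [← hL]
  refine ⟨by omega, ?_⟩
  obtain ⟨m, hm⟩ : ∃ m, m = L / 2 := ⟨_, rfl⟩
  have h3 : (2 ^ m) ^ 2 ≤ n := by
    calc (2 ^ m) ^ 2 = 2 ^ (2 * m) := by rw [← pow_mul, mul_comm]
      _ ≤ 2 ^ L := Nat.pow_le_pow_right (by norm_num) (by omega)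
      _ ≤ n := by rw [hL]; exact Nat.pow_log_le_self 2 hn0
  have h4 : 2 ^ m ≤ Nat.sqrt n := by
    rw [Nat.le_sqrt, ← sq]
    exact h3
  refine le_trans ?_ h4
  have h5 := hu0 (m + 2) (by omega)
  rw [div_lt_div_iff₀ (by positivity) (by positivity), one_mul] at h5
  have h6 : (m + 2) ^ 2 * (32 * C + 1) < 2 ^ (m + 2) := by exact_mod_cast h5
  have h7 : L + 3 ≤ 2 * (m + 2) := by omega
  have h8 : C * (L + 3) ^ 2 ≤ C * (2 * (m + 2)) ^ 2 :=
    Nat.mul_le_mul_left _ (Nat.pow_le_pow_left h7 2)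
  have h9 : 2 ^ (m + 2) = 4 * 2 ^ m := by rw [pow_add]; ring
  nlinarith

/-- The main counting theorem. -/
theorem main (d : ℕ) : ∃ N : ℕ, ∀ n, N ≤ n → ∀ q : ℕ, n ^ 2 ≤ 2 * q + 1 →
    ∀ c : (Fin d → Fin (2 * q + 1)) → ℝ, AlgebraicIndependent ℚ c → (∀ a, 0 < c a) →
    ∀ P : Finset (Fin d → ℝ), P.card = n → (0 : Fin d → ℝ) ∈ P →
      n ≤ ((Df P).image (Fv c)).card + 1 := by
  obtain ⟨b, hb⟩ : ∃ b, b = 11 * (d + 1) := ⟨_, rfl⟩
  obtain ⟨C, hC1, hC2, hC3, hC4, hC5⟩ : ∃ C : ℕ, 1152 * 128 * b ^ 2 * (1 + b ^ 2) ≤ C ∧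
      128 * b ≤ C ∧ 8 * b ≤ C ∧ 2 * d + 2 ≤ C ∧ 4369 * (d + 1) ^ 3 ≤ C := by
    refine ⟨1152 * 128 * b ^ 2 * (1 + b ^ 2) + (128 * b + (8 * b + ((2 * d + 2) +
      4369 * (d + 1) ^ 3))), ?_, ?_, ?_, ?_, ?_⟩
    · exact Nat.le_add_right _ _
    · exact (Nat.le_add_right _ _).trans (Nat.le_add_left _ _)
    · exact ((Nat.le_add_right _ _).trans (Nat.le_add_left _ _)).trans (Nat.le_add_left _ _)
    · exact (((Nat.le_add_right _ _).trans (Nat.le_add_left _ _)).trans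
        (Nat.le_add_left _ _)).trans (Nat.le_add_left _ _)
    · exact (((Nat.le_add_left _ _).trans (Nat.le_add_left _ _)).trans
        (Nat.le_add_left _ _)).trans (Nat.le_add_left _ _)
  obtain ⟨N, hN⟩ := exists_large C
  refine ⟨N + 2, fun n hn q hq c hc hpos P hP h0 => ?_⟩
  obtain ⟨hlog, hsq⟩ := hN n (by omega)
  obtain ⟨a, ha⟩ : ∃ a, a = Nat.sqrt n := ⟨_, rfl⟩
  obtain ⟨k, hk⟩ : ∃ k, k = Nat.log 2 n + 3 := ⟨_, rfl⟩
  rw [← ha, ← hk] at hsq
  have hkC : C ≤ k := by omega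
  have hk1 : 1 ≤ k := by omega
  have hC0 : 2 ≤ C := by omega
  have hkk : k ≤ k ^ 2 := Nat.le_self_pow (by norm_num) k
  have hCk : C * k ≤ a := (Nat.mul_le_mul_left _ hkk).trans hsq
  have hCa : C ≤ a := le_trans (Nat.le_mul_of_pos_right C hk1) hCk
  have ha1 : a ^ 2 ≤ n := by rw [ha, sq]; exact Nat.sqrt_le n
  have ha2 : n ≤ 2 * a ^ 2 := by
    have h1 : n < (a + 1) * (a + 1) := by rw [ha]; exact Nat.lt_succ_sqrt n
    have h2 : 2 * a ≤ a * a := Nat.mul_le_mul_right a (hC0.trans hCa)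
    have h3 : (a + 1) * (a + 1) = a * a + 2 * a + 1 := by ring
    have h4 : 2 * a ^ 2 = a * a + a * a := by ring
    omega
  have hn2 : 2 ≤ n := by omega
  have hq1 : 1 ≤ q := by
    have h1 : 2 ^ 2 ≤ n ^ 2 := Nat.pow_le_pow_left hn2 2
    omega
  obtain ⟨f, g, hG⟩ := exists_gen P
  obtain ⟨H, p, hch, hall⟩ := exists_chain h0
  have hPn : P.card ^ 2 ≤ 2 * q + 1 := by rw [hP]; exact hq
  have e := hP
  rcases Nat.lt_or_ge H (5 * a) with hH | hH
  · by_cases hcase : (∃ θ t, 2 * (H * d) + 2 ≤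
        ((P.image (pr f g)).filter (fun y => ht θ y = t)).card) ∨
        (2 * (H * d) + 1) * (4 * (H * d) ^ 2 + 1) ≤ P.card
    · have := thin hq1 hc hpos hPn hG hall (by omega) hcase
      omega
    · push Not at hcase
      obtain ⟨hc1, hc2⟩ := hcase
      have h3 : 3 * P.card ≤ 2 ^ k := by
        have h4 : n < 2 ^ (Nat.log 2 n + 1) := Nat.lt_pow_succ_log_self (by norm_num) n
        have h5 : 2 ^ k = 4 * 2 ^ (Nat.log 2 n + 1) := by
          rw [hk, show Nat.log 2 n + 3 = (Nat.log 2 n + 1) + 2 by ring, pow_add]; ring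
        rw [hP, h5]
        omega
      have h8 : 8 * k ≤ H := by
        by_contra hlt
        push Not at hlt
        have h9 : H * d ≤ 8 * k * (d + 1) := Nat.mul_le_mul hlt.le (by omega)
        obtain ⟨u, hu⟩ : ∃ u, u = k * (d + 1) := ⟨_, rfl⟩
        have h10 : H * d ≤ 8 * u := by rw [hu, ← mul_assoc]; exact h9
        have hu1 : 1 ≤ u := by rw [hu]; exact Nat.mul_pos hk1 (Nat.succ_pos d)
        have h11 : (2 * (H * d) + 1) * (4 * (H * d) ^ 2 + 1) ≤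
            (2 * (8 * u) + 1) * (4 * (8 * u) ^ 2 + 1) := by gcongr
        have h12 : (2 * (8 * u) + 1) * (4 * (8 * u) ^ 2 + 1) ≤ 17 * u * (257 * u ^ 2) := by
          apply Nat.mul_le_mul
          · omega
          · have h13 : 1 ≤ u ^ 2 := Nat.one_le_pow _ _ hu1
            have h14 : 4 * (8 * u) ^ 2 = 256 * u ^ 2 := by ring
            omega
        have h13 : 17 * u * (257 * u ^ 2) = (4369 * (d + 1) ^ 3) * k ^ 3 := by
          rw [hu]; ring
        have h15 : (4369 * (d + 1) ^ 3) * k ^ 3 ≤ (C * k ^ 2) ^ 2 := by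
          have h16 : k ^ 3 ≤ k ^ 4 := Nat.pow_le_pow_right hk1 (by norm_num)
          have h17 : C ≤ C ^ 2 := Nat.le_self_pow (by norm_num) C
          calc (4369 * (d + 1) ^ 3) * k ^ 3 ≤ C ^ 2 * k ^ 4 := Nat.mul_le_mul (hC5.trans h17) h16
            _ = (C * k ^ 2) ^ 2 := by ring
        have h16 : (C * k ^ 2) ^ 2 ≤ a ^ 2 := Nat.pow_le_pow_left hsq 2
        have h17 := h11.trans (h12.trans (h13.le.trans (h15.trans (h16.trans ha1))))
        rw [hP] at hc2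
        exact absurd h17 (not_le.2 hc2)
      have h5 : H * d ≤ 5 * a * (d + 1) := Nat.mul_le_mul hH.le (by omega)
      have h6 : 5 * a * (d + 1) ≤ b * a := by
        rw [hb]
        have : 11 * (d + 1) * a = 5 * a * (d + 1) + 6 * (a * (d + 1)) := by ring
        rw [this]
        exact Nat.le_add_right _ _
      have h7 : 2 * (H * d) + 1 ≤ b * a := by
        rw [hb]
        have h9 : 11 * (d + 1) * a = 2 * (5 * a * (d + 1)) + a * (d + 1) := by ring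
        have h10 : 1 ≤ a * (d + 1) := Nat.mul_pos (by omega) (Nat.succ_pos d)
        rw [h9]
        omega
      have := middle hq1 hc hpos hPn hG hch hall (a := a) (k := k) (b := b) (by omega)
        (by rw [hP]; exact ha1) (by rw [hP]; exact ha2) h8 h3 (h5.trans h6) h7
        ((Nat.mul_le_mul_right k hC2).trans hCk)
        (hC3.trans hCa) (hC1.trans hkC) (fun θ t => by have := hc1 θ t; omega)
      omega
  · have := dense hq1 hc hpos hPn hG hch hall (a := a) (by omega) (by rw [hP]; exact ha2) hH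
    omega

end Pool.Agent.E8helper93.NM
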