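import Pool.Agent.E8helper93.NM.Main

/-!
The norm.
-/

set_option autoImplicit false

namespace Pool.Agent.E8helper93.NM

open Finset

variable {d q : ℕ}

/-- The norm given by a form of degree `2 * q`. -/
noncomputable def nu (c : (Fin d → Fin (2 * q + 1)) → ℝ) (x : Fin d → ℝ) : ℝ :=
  (Fv c x) ^ (1 / ((2 * q : ℕ) : ℝ))

theorem ip_add (a : Fin d → Fin (2 * q + 1)) (x y : Fin d → ℝ) :
    ip a (x + y) = ip a x + ip a y := by
  unfold ip
  rw [← sum_add_distrib]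
  exact sum_congr rfl fun k _ => by rw [Pi.add_apply]; ring

theorem Fv_nonneg {c : (Fin d → Fin (2 * q + 1)) → ℝ} (hc : ∀ a, 0 < c a) (x : Fin d → ℝ) :
    0 ≤ Fv c x := by
  unfold Fv
  exact sum_nonneg fun a _ => mul_nonneg (hc a).le (by rw [pow_mul]; positivity)

theorem Fv_eq (hq : 1 ≤ q) {c : (Fin d → Fin (2 * q + 1)) → ℝ} (hc : ∀ a, 0 < c a)
    (x : Fin d → ℝ) : Fv c x =
      ∑ a, |(c a) ^ (1 / ((2 * q : ℕ) : ℝ)) * ip a x| ^ ((2 * q : ℕ) : ℝ) := by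
  unfold Fv
  refine sum_congr rfl fun a _ => ?_
  rw [Real.rpow_natCast, abs_mul, mul_pow, pow_mul |ip a x|, sq_abs, ← pow_mul, abs_of_nonneg
    (Real.rpow_nonneg (hc a).le _), one_div, Real.rpow_inv_natCast_pow (hc a).le (by omega)]

theorem nu_nonneg {c : (Fin d → Fin (2 * q + 1)) → ℝ} (hc : ∀ a, 0 < c a) (x : Fin d → ℝ) :
    0 ≤ nu c x := Real.rpow_nonneg (Fv_nonneg hc x) _

theorem nu_pow (hq : 1 ≤ q) {c : (Fin d → Fin (2 * q + 1)) → ℝ} (hc : ∀ a, 0 < c a)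
    (x : Fin d → ℝ) : nu c x ^ (2 * q) = Fv c x := by
  unfold nu
  rw [one_div, Real.rpow_inv_natCast_pow (Fv_nonneg hc x) (by omega)]

theorem nu_add (hq : 1 ≤ q) {c : (Fin d → Fin (2 * q + 1)) → ℝ} (hc : ∀ a, 0 < c a)
    (x y : Fin d → ℝ) : nu c (x + y) ≤ nu c x + nu c y := by
  unfold nu
  rw [Fv_eq hq hc, Fv_eq hq hc, Fv_eq hq hc]
  have h1 : (1 : ℝ) ≤ ((2 * q : ℕ) : ℝ) := by exact_mod_cast (show 1 ≤ 2 * q by omega)
  have h2 := Real.Lp_add_le univ (fun a => (c a) ^ (1 / ((2 * q : ℕ) : ℝ)) * ip a x)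
    (fun a => (c a) ^ (1 / ((2 * q : ℕ) : ℝ)) * ip a y) h1
  refine le_trans (le_of_eq ?_) h2
  congr 1
  refine sum_congr rfl fun a _ => ?_
  rw [ip_add, mul_add]

theorem nu_smul (hq : 1 ≤ q) {c : (Fin d → Fin (2 * q + 1)) → ℝ} (hc : ∀ a, 0 < c a)
    (t : ℝ) (x : Fin d → ℝ) : nu c (t • x) = |t| * nu c x := by
  have h1 : nu c (t • x) ^ (2 * q) = (|t| * nu c x) ^ (2 * q) := by
    rw [mul_pow, nu_pow hq hc, nu_pow hq hc, Fv_smul, pow_mul |t|, sq_abs, ← pow_mul]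
  exact (pow_left_inj₀ (nu_nonneg hc _) (mul_nonneg (abs_nonneg _) (nu_nonneg hc _))
    (by omega)).1 h1

theorem nu_eq_zero (hq : 1 ≤ q) {c : (Fin d → Fin (2 * q + 1)) → ℝ} (hc : ∀ a, 0 < c a)
    {x : Fin d → ℝ} (h : nu c x = 0) : x = 0 := by
  by_contra hx
  have h1 := Fv_pos hq hc hx
  rw [← nu_pow hq hc, h, zero_pow (by omega)] at h1
  exact lt_irrefl _ h1

theorem Df_sub (P : Finset (Fin d → ℝ)) (z : Fin d → ℝ) :
    Df (P.image (fun x => x - z)) = Df P := by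
  ext v
  rw [mem_Df, mem_Df]
  constructor
  · rintro ⟨h, x, hx, y, hy, rfl⟩
    obtain ⟨x', hx', rfl⟩ := mem_image.1 hx
    obtain ⟨y', hy', rfl⟩ := mem_image.1 hy
    exact ⟨h, x', hx', y', hy', by abel⟩
  · rintro ⟨h, x, hx, y, hy, rfl⟩
    exact ⟨h, _, mem_image_of_mem _ hx, _, mem_image_of_mem _ hy, by abel⟩

/-- Many distances. -/
theorem many (d : ℕ) : ∃ N : ℕ, ∀ n, N ≤ n → ∀ q : ℕ, 1 ≤ q → n ^ 2 ≤ 2 * q + 1 →
    ∀ c : (Fin d → Fin (2 * q + 1)) → ℝ, AlgebraicIndependent ℚ c → (∀ a, 0 < c a) →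
    ∀ P : Finset (Fin d → ℝ), P.card = n →
      n ≤ (P.offDiag.image (fun x => nu c (x.1 - x.2))).card + 1 := by
  classical
  obtain ⟨N, hN⟩ := main d
  refine ⟨N + 1, fun n hn q hq1 hq c hc hpos P hP => ?_⟩
  obtain ⟨z, hz⟩ := card_pos.1 (show 0 < P.card by omega)
  have h1 := hN n (by omega) q hq c hc hpos (P.image (fun x => x - z)) (by
    rw [card_image_of_injective _ sub_left_injective, hP]) (mem_image.2 ⟨z, hz, sub_self z⟩)
  rw [Df_sub] at h1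
  refine h1.trans (Nat.add_le_add_right ?_ 1)
  have h2 : (Df P).image (Fv c) ⊆
      (P.offDiag.image (fun x => nu c (x.1 - x.2))).image (fun t => t ^ (2 * q)) := by
    intro t ht
    obtain ⟨v, hv, rfl⟩ := mem_image.1 ht
    obtain ⟨h3, x, hx, y, hy, rfl⟩ := mem_Df.1 hv
    refine mem_image.2 ⟨nu c (x - y), mem_image.2 ⟨(x, y), ?_, rfl⟩, nu_pow hq1 hpos _⟩
    rw [mem_offDiag]
    exact ⟨hx, hy, sub_ne_zero.1 h3⟩
  exact (card_le_card h2).trans card_image_le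

end Pool.Agent.E8helper93.NM
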